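import Mathlib

/-!
# Regular shortlex conjugacy languages (MP_d3f668_al): definitions

`SL ι` is the spherical conjugacy language, `ConjSeparable G` conjugacy separability.
Auxiliary objects (not used in the final statement): a system `S : Sys G V E` is a right action of
`G` on a set `V` with an additive cocycle `cl : V → G → (E → ℤ)`; `pr f c` is the pairing; a closed
word at `x` is tight (`TC`) for `f` if its pairing equals its length.
-/

set_option autoImplicit false

namespace Pool.Agent.H73.D3

/-- The spherical conjugacy language of a group with respect to the (images of the) letters and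
the order of the alphabet: the words that are shortlex-least among all words representing an
element of their conjugacy class, one word for each class. -/
def SL {G α : Type*} [Group G] [LinearOrder α] (ι : α → G) : Language α :=
  {w : List α | ∀ v : List α, IsConj (v.map ι).prod (w.map ι).prod →
    (w.length < v.length ∨ (w.length = v.length ∧ (w = v ∨ w < v)))}

/-- A group is conjugacy separable if any two non-conjugate elements have non-conjugate images
in some finite quotient. -/
def ConjSeparable (G : Type*) [Group G] : Prop :=
  ∀ g h : G, ¬ IsConj g h →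
    ∃ (Q : Type) (_ : Group Q) (_ : Finite Q) (f : G →* Q), ¬ IsConj (f g) (f h)

/-- value of a word -/
def ev {G α : Type*} [Group G] (ι : α → G) (w : List α) : G := (w.map ι).prod

theorem ev_nil {G α : Type*} [Group G] (ι : α → G) : ev ι [] = 1 := rfl

theorem ev_cons {G α : Type*} [Group G] (ι : α → G) (a : α) (w : List α) :
    ev ι (a :: w) = ι a * ev ι w := by simp [ev]

theorem ev_append {G α : Type*} [Group G] (ι : α → G) (u v : List α) :
    ev ι (u ++ v) = ev ι u * ev ι v := by simp [ev]

/-- `n` copies of the word `z` -/
def rp {α : Type*} (n : ℕ) (z : List α) : List α := (List.replicate n z).flatten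

theorem rp_zero {α : Type*} (z : List α) : rp 0 z = [] := rfl

theorem rp_succ {α : Type*} (n : ℕ) (z : List α) : rp (n + 1) z = z ++ rp n z := by
  simp [rp, List.replicate_succ]

theorem rp_add {α : Type*} (m n : ℕ) (z : List α) : rp (m + n) z = rp m z ++ rp n z := by
  rw [rp, rp, rp, List.replicate_add, List.flatten_append]

theorem ev_rp {G α : Type*} [Group G] (ι : α → G) (n : ℕ) (z : List α) :
    ev ι (rp n z) = ev ι z ^ n := by
  induction n with
  | zero => simp [rp_zero, ev_nil]
  | succ n ih => rw [rp_succ, ev_append, ih, pow_succ']

/-- A right action with an additive cocycle. -/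
structure Sys (G V E : Type*) [Group G] where
  /-- the right action -/
  act : V → G → V
  act_one : ∀ x, act x 1 = x
  act_mul : ∀ x g h, act x (g * h) = act (act x g) h
  /-- the cocycle -/
  cl : V → G → (E → ℤ)
  cl_mul : ∀ x g h, cl x (g * h) = cl x g + cl (act x g) h

/-- pairing -/
def pr {E : Type*} [Fintype E] (f : E → ℚ) (c : E → ℤ) : ℚ := ∑ e, f e * (c e : ℚ)

theorem pr_add {E : Type*} [Fintype E] (f : E → ℚ) (c d : E → ℤ) :
    pr f (c + d) = pr f c + pr f d := by
  simp only [pr, Pi.add_apply, Int.cast_add, mul_add, Finset.sum_add_distrib]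

namespace Sys

variable {G V E α : Type*} [Group G]

theorem cl_one (S : Sys G V E) (x : V) : S.cl x 1 = 0 := by
  have h := S.cl_mul x 1 1
  rw [mul_one, S.act_one] at h
  simpa using h

/-- the word `w` is closed and tight at `x` -/
def TC [Fintype E] (S : Sys G V E) (ι : α → G) (f : E → ℚ) (x : V) (w : List α) : Prop :=
  S.act x (ev ι w) = x ∧ pr f (S.cl x (ev ι w)) = w.length

/-- all closed words have pairing at most their length -/
def Norm [Fintype E] (S : Sys G V E) (ι : α → G) (f : E → ℚ) : Prop :=
  ∀ (x : V) (w : List α), S.act x (ev ι w) = x → pr f (S.cl x (ev ι w)) ≤ w.length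

/-- two integral classes are independent -/
def Ind {E : Type*} (c d : E → ℤ) : Prop := ∃ e₁ e₂ : E, c e₁ * d e₂ - c e₂ * d e₁ ≠ 0

/-- `x` carries two tight closed words with independent classes -/
def Good [Fintype E] (S : Sys G V E) (ι : α → G) (f : E → ℚ) (x : V) : Prop :=
  ∃ w₁ w₂ : List α, S.TC ι f x w₁ ∧ S.TC ι f x w₂ ∧
    Ind (S.cl x (ev ι w₁)) (S.cl x (ev ι w₂))

end Sys

end Pool.Agent.H73.D3
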