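import Pool.Agent.H73.D3.Gr

/-!
# Module Co [H73 D3]: pumping and conjugacy separability
-/

set_option autoImplicit false

namespace Pool.Agent.H73.D3

section words

variable {G α : Type*} [Group G] [LinearOrder α]

theorem exists_SL [Finite α] (ι : α → G) (w : List α) :
    ∃ u ∈ SL ι, IsConj (ev ι u) (ev ι w) := by
  classical
  have hex : ∃ n : ℕ, ∃ u : List α, u.length = n ∧ IsConj (u.map ι).prod (w.map ι).prod :=
    ⟨w.length, w, rfl, IsConj.refl _⟩
  obtain ⟨u0, hu0, hc0⟩ := Nat.find_spec hex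
  have hfin : ({u : List α | u.length = Nat.find hex ∧
      IsConj (u.map ι).prod (w.map ι).prod}).Finite :=
    (List.finite_length_eq α (Nat.find hex)).subset (fun u hu => hu.1)
  obtain ⟨u, hu, hmin⟩ := Set.exists_min_image _ (fun u : List α => u) hfin ⟨u0, hu0, hc0⟩
  refine ⟨u, ?_, hu.2⟩
  intro v hv
  have hvw : IsConj (v.map ι).prod (w.map ι).prod := hv.trans hu.2
  have hlen : Nat.find hex ≤ v.length := Nat.find_min' hex ⟨v, rfl, hvw⟩
  rcases lt_or_eq_of_le hlen with h | h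
  · left; rw [hu.1]; exact h
  · right
    refine ⟨hu.1.trans h, ?_⟩
    exact (hmin v ⟨h.symm, hvw⟩).eq_or_lt

theorem SL_unique (ι : α → G) {u v : List α} (hu : u ∈ SL ι) (hv : v ∈ SL ι)
    (h : IsConj (ev ι u) (ev ι v)) : u = v := by
  rcases hu v h.symm with h1 | ⟨h1, h2 | h2⟩
  · rcases hv u h with h3 | ⟨h3, _⟩ <;> omega
  · exact h2
  · rcases hv u h with h3 | ⟨h3, h4 | h4⟩
    · omega
    · exact h4.symm
    · exact absurd (h2.trans h4) (lt_irrefl _)

theorem take_mono : ∀ (k : ℕ) (u t : List α), u ≤ t → u.length = t.length →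
    u.take k ≤ t.take k := by
  intro k
  induction k with
  | zero => intro u t _ _; simp
  | succ k ih =>
    intro u t hle hlen
    cases u with
    | nil =>
      cases t with
      | nil => simp
      | cons b t => simp at hlen
    | cons a u =>
      cases t with
      | nil => simp at hlen
      | cons b t =>
        simp only [List.length_cons, add_left_inj] at hlen
        rw [List.take_succ_cons, List.take_succ_cons]
        rcases hle.lt_or_eq with h | h
        · rcases List.cons_lt_cons_iff.1 h with h1 | ⟨h1, h2⟩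
          · exact (List.cons_lt_cons_iff.2 (Or.inl h1)).le
          · have h3 := ih u t h2.le hlen
            rcases h3.lt_or_eq with h4 | h4
            · exact (List.cons_lt_cons_iff.2 (Or.inr ⟨h1, h4⟩)).le
            · rw [h1, h4]
        · rw [List.cons.injEq] at h
          rw [h.1, h.2]

end words

theorem rp_one {α : Type*} (z : List α) : rp 1 z = z := by
  rw [rp_succ, rp_zero, List.append_nil]

theorem rp_succ' {α : Type*} (n : ℕ) (z : List α) : rp (n + 1) z = rp n z ++ z := by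
  rw [rp_add, rp_one]

theorem rp_rp {α : Type*} (n k : ℕ) (z : List α) : rp n (rp k z) = rp (n * k) z := by
  induction n with
  | zero => rw [Nat.zero_mul, rp_zero, rp_zero]
  | succ n ih => rw [rp_succ, ih, Nat.succ_mul, Nat.add_comm, rp_add]

section ind

variable {E : Type*}

theorem nsmul_app (k : ℕ) (c : E → ℤ) (e : E) : (k • c) e = (k : ℤ) * c e := by simp

theorem ind_smul {c d : E → ℤ} (h : Sys.Ind c d) {j : ℕ} (hj : j ≠ 0) :
    Sys.Ind c (j • d) := by
  obtain ⟨e₁, e₂, h⟩ := h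
  refine ⟨e₁, e₂, ?_⟩
  have h1 : c e₁ * (j • d) e₂ - c e₂ * (j • d) e₁ = (j : ℤ) * (c e₁ * d e₂ - c e₂ * d e₁) := by
    simp only [Pi.smul_apply, nsmul_eq_mul]
    ring
  rw [h1]
  exact mul_ne_zero (by exact_mod_cast hj) h

theorem ind_three {x e c d : E → ℤ} (hx : x ≠ 0) (hcd : Sys.Ind c d) :
    Sys.Ind x e ∨ Sys.Ind x (e + c) ∨ Sys.Ind x (e + d) := by
  by_contra hcon
  push Not at hcon
  obtain ⟨h1, h2, h3⟩ := hcon
  have k1 : ∀ a b, x a * e b - x b * e a = 0 := fun a b => by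
    by_contra h; exact h1 ⟨a, b, h⟩
  have k2 : ∀ a b, x a * (e + c) b - x b * (e + c) a = 0 := fun a b => by
    by_contra h; exact h2 ⟨a, b, h⟩
  have k3 : ∀ a b, x a * (e + d) b - x b * (e + d) a = 0 := fun a b => by
    by_contra h; exact h3 ⟨a, b, h⟩
  obtain ⟨a0, ha0⟩ : ∃ a, x a ≠ 0 := by
    by_contra h
    push Not at h
    exact hx (funext h)
  obtain ⟨a, b, hab⟩ := hcd
  apply hab
  have m1 : ∀ s, x a0 * c s = x s * c a0 := fun s => by
    have i1 := k1 a0 s
    have i2 := k2 a0 s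
    simp only [Pi.add_apply] at i2
    linear_combination i2 - i1
  have m2 : ∀ s, x a0 * d s = x s * d a0 := fun s => by
    have i1 := k1 a0 s
    have i2 := k3 a0 s
    simp only [Pi.add_apply] at i2
    linear_combination i2 - i1
  have m3 : x a0 ^ 2 * (c a * d b - c b * d a) = 0 := by
    linear_combination x a0 * d b * m1 a + x a * c a0 * m2 b - x a0 * d a * m1 b
      - x b * c a0 * m2 a
  rcases mul_eq_zero.1 m3 with h | h
  · exact absurd h (pow_ne_zero 2 ha0)
  · exact h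

theorem ind_comb {ξ η : E → ℤ} (h : Sys.Ind ξ η) {m n : ℕ} (hmn : m ≠ n) :
    Sys.Ind (m • ξ + 2 • η) (n • ξ + 2 • η) := by
  obtain ⟨e₁, e₂, h⟩ := h
  refine ⟨e₁, e₂, ?_⟩
  have h1 : (m • ξ + 2 • η) e₁ * (n • ξ + 2 • η) e₂ - (m • ξ + 2 • η) e₂ * (n • ξ + 2 • η) e₁
      = 2 * ((m : ℤ) - n) * (ξ e₁ * η e₂ - ξ e₂ * η e₁) := by
    simp only [Pi.add_apply, nsmul_app]
    push_cast
    ring
  rw [h1]
  refine mul_ne_zero (mul_ne_zero two_ne_zero ?_) h
  rw [sub_ne_zero]
  exact_mod_cast hmn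

end ind

section sys

variable {G V E α : Type*} [Group G]

theorem act_pow (S : Sys G V E) {x : V} {g : G} (h : S.act x g = x) (n : ℕ) :
    S.act x (g ^ n) = x := by
  induction n with
  | zero => rw [pow_zero, S.act_one]
  | succ n ih => rw [pow_succ, S.act_mul, ih, h]

theorem cl_pow (S : Sys G V E) {x : V} {g : G} (h : S.act x g = x) (n : ℕ) :
    S.cl x (g ^ n) = n • S.cl x g := by
  induction n with
  | zero => rw [pow_zero, S.cl_one, zero_smul]
  | succ n ih => rw [pow_succ, S.cl_mul, ih, act_pow S h, succ_nsmul]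

theorem exists_pow_trivial [Finite V] (S : Sys G V E) (g : G) :
    ∃ k : ℕ, 0 < k ∧ ∀ x, S.act x (g ^ k) = x := by
  let σ : Equiv.Perm V :=
    { toFun := fun x => S.act x g
      invFun := fun x => S.act x g⁻¹
      left_inv := fun x => by
        change S.act (S.act x g) g⁻¹ = x
        rw [← S.act_mul, mul_inv_cancel, S.act_one]
      right_inv := fun x => by
        change S.act (S.act x g⁻¹) g = x
        rw [← S.act_mul, inv_mul_cancel, S.act_one] }
  have hσ : ∀ (n : ℕ) x, S.act x (g ^ n) = (σ ^ n) x := by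
    intro n
    induction n with
    | zero => intro x; rw [pow_zero, S.act_one]; rfl
    | succ n ih =>
      intro x
      rw [pow_succ, S.act_mul, ih, pow_succ']
      rfl
  refine ⟨Nat.card (Equiv.Perm V), Nat.card_pos, fun x => ?_⟩
  rw [hσ, pow_card_eq_one']
  rfl

theorem pr_nsmul [Fintype E] (f : E → ℚ) (n : ℕ) (c : E → ℤ) : pr f (n • c) = n * pr f c := by
  induction n with
  | zero => simp [pr]
  | succ n ih => rw [succ_nsmul, pr_add, ih]; push_cast; ring

theorem cl_conj (S : Sys G V E) {x : V} {t : G} (ht : S.act x t = x) (g : G) :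
    S.act (S.act x g⁻¹) (g * t * g⁻¹) = S.act x g⁻¹ ∧
      S.cl (S.act x g⁻¹) (g * t * g⁻¹) = S.cl x t := by
  have h0 : S.act (S.act x g⁻¹) g = x := by rw [← S.act_mul, inv_mul_cancel, S.act_one]
  have h1 : S.cl x g⁻¹ + S.cl (S.act x g⁻¹) g = 0 := by
    rw [← S.cl_mul, inv_mul_cancel, S.cl_one]
  refine ⟨?_, ?_⟩
  · rw [S.act_mul, S.act_mul, h0, ht]
  · rw [S.cl_mul, S.cl_mul, S.act_mul, h0, ht]
    have h2 : S.cl (S.act x g⁻¹) g = - S.cl x g⁻¹ := eq_neg_of_add_eq_zero_right h1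
    rw [h2]
    abel

end sys

/-- The data produced by the greedy path, after taking powers. -/
theorem setup {G V E α : Type*} [Group G] [Finite V] [Fintype E] [LinearOrder α] [Finite α]
    (S : Sys G V E) (ι : α → G) (f : E → ℚ) (hN : S.Norm ι f) (hG : ∃ x, S.Good ι f x) :
    ∃ (x0 : V) (p z w : List α), z ≠ [] ∧
      (∀ x, S.act x (ev ι p * ev ι z * (ev ι p)⁻¹) = x) ∧
      (∀ x, S.act x (ev ι p * ev ι w) = x) ∧
      pr f (S.cl x0 (ev ι p * ev ι z * (ev ι p)⁻¹)) = z.length ∧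
      pr f (S.cl x0 (ev ι p * ev ι w)) = p.length + w.length ∧
      Sys.Ind (S.cl x0 (ev ι p * ev ι z * (ev ι p)⁻¹)) (S.cl x0 (ev ι p * ev ι w)) ∧
      ∀ (x : V) (u : List α), S.Good ι f x → S.TC ι f x u → ∀ n : ℕ,
        (p ++ rp n z).length ≤ u.length → p ++ rp n z ≤ u.take (p ++ rp n z).length := by
  obtain ⟨x0, p, z, hx0, hz, hzT, ⟨r, hr⟩, hlex⟩ := greedy S ι f hN hG
  obtain ⟨k, hk, hkt⟩ := exists_pow_trivial S (ev ι p * ev ι z * (ev ι p)⁻¹)
  have hX : ev ι p * ev ι (rp k z) * (ev ι p)⁻¹ = (ev ι p * ev ι z * (ev ι p)⁻¹) ^ k := by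
    rw [ev_rp, conj_pow]
  have hzlen : z.length ≠ 0 := fun h => hz (List.length_eq_zero_iff.1 h)
  -- class of z at x1
  have hclX : S.cl x0 (ev ι p * ev ι z * (ev ι p)⁻¹) = S.cl (S.act x0 (ev ι p)) (ev ι z) := by
    have h1 : S.cl x0 (ev ι p) + S.cl (S.act x0 (ev ι p)) (ev ι p)⁻¹ = 0 := by
      rw [← S.cl_mul, mul_inv_cancel, S.cl_one]
    rw [S.cl_mul, S.cl_mul, S.act_mul, hzT.1]
    have h2 : S.cl (S.act x0 (ev ι p)) (ev ι p)⁻¹ = - S.cl x0 (ev ι p) :=
      eq_neg_of_add_eq_zero_right h1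
    rw [h2]
    abel
  have hactX : S.act x0 (ev ι p * ev ι z * (ev ι p)⁻¹) = x0 := by
    rw [S.act_mul, S.act_mul, hzT.1, ← S.act_mul, mul_inv_cancel, S.act_one]
  have hprX : pr f (S.cl x0 (ev ι p * ev ι z * (ev ι p)⁻¹)) = z.length := by
    rw [hclX]; exact hzT.2
  have hne : S.cl x0 (ev ι p * ev ι z * (ev ι p)⁻¹) ≠ 0 := by
    intro h
    rw [h] at hprX
    have h3 : pr f (0 : E → ℤ) = 0 := by simp [pr]
    rw [h3] at hprX
    exact hzlen (by exact_mod_cast hprX.symm)
  -- choose w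
  obtain ⟨w, hwact, hwpr, hwind⟩ : ∃ w : List α, S.act x0 (ev ι p * ev ι w) = x0 ∧
      pr f (S.cl x0 (ev ι p * ev ι w)) = p.length + w.length ∧
      Sys.Ind (S.cl x0 (ev ι p * ev ι z * (ev ι p)⁻¹)) (S.cl x0 (ev ι p * ev ι w)) := by
    obtain ⟨w₁, w₂, hw1, hw2, hind⟩ := hx0
    have hr1 : S.act x0 (ev ι p * ev ι r) = x0 := by
      have := hr.1
      rwa [ev_append] at this
    have hr2 : pr f (S.cl x0 (ev ι p * ev ι r)) = p.length + r.length := by
      have := hr.2
      rw [ev_append, List.length_append] at this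
      rw [this]; push_cast; rfl
    have hext : ∀ v : List α, S.TC ι f x0 v → S.act x0 (ev ι p * ev ι (r ++ v)) = x0 ∧
        pr f (S.cl x0 (ev ι p * ev ι (r ++ v))) = p.length + (r ++ v).length ∧
        S.cl x0 (ev ι p * ev ι (r ++ v)) = S.cl x0 (ev ι p * ev ι r) + S.cl x0 (ev ι v) := by
      intro v hv
      have e1 : ev ι p * ev ι (r ++ v) = (ev ι p * ev ι r) * ev ι v := by
        rw [ev_append, mul_assoc]
      have e2 : S.cl x0 (ev ι p * ev ι (r ++ v))
          = S.cl x0 (ev ι p * ev ι r) + S.cl x0 (ev ι v) := by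
        rw [e1, S.cl_mul, hr1]
      refine ⟨by rw [e1, S.act_mul, hr1, hv.1], ?_, e2⟩
      rw [e2, pr_add, hr2, hv.2, List.length_append]
      push_cast
      ring
    rcases ind_three (e := S.cl x0 (ev ι p * ev ι r)) hne hind with h | h | h
    · exact ⟨r, hr1, hr2, h⟩
    · obtain ⟨a1, a2, a3⟩ := hext w₁ hw1
      exact ⟨r ++ w₁, a1, a2, by rw [a3]; exact h⟩
    · obtain ⟨a1, a2, a3⟩ := hext w₂ hw2
      exact ⟨r ++ w₂, a1, a2, by rw [a3]; exact h⟩
  obtain ⟨j, hj, hjt⟩ := exists_pow_trivial S (ev ι p * ev ι w)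
  obtain ⟨j, rfl⟩ : ∃ j', j = j' + 1 := ⟨j - 1, by omega⟩
  have hW : ev ι p * ev ι (w ++ rp j (p ++ w)) = (ev ι p * ev ι w) ^ (j + 1) := by
    rw [ev_append, ev_rp, ev_append, ← mul_assoc, pow_succ']
  refine ⟨x0, p, rp k z, w ++ rp j (p ++ w), ?_, ?_, ?_, ?_, ?_, ?_, ?_⟩
  · intro h
    have h1 := congrArg List.length h
    rw [rp, List.length_flatten] at h1
    simp at h1
    rcases h1 with h1 | h1
    · omega
    · exact hz h1
  · intro x; rw [hX]; exact hkt x
  · intro x; rw [hW]; exact hjt x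
  · rw [hX, cl_pow S hactX, pr_nsmul, hprX, rp, List.length_flatten]
    simp
  · rw [hW, cl_pow S hwact, pr_nsmul, hwpr, List.length_append, rp, List.length_flatten]
    simp
    ring
  · rw [hX, hW, cl_pow S hactX, cl_pow S hwact]
    apply ind_smul _ (by omega)
    obtain ⟨e₁, e₂, h⟩ := hwind
    refine ⟨e₁, e₂, ?_⟩
    have h1 : (k • S.cl x0 (ev ι p * ev ι z * (ev ι p)⁻¹)) e₁ * S.cl x0 (ev ι p * ev ι w) e₂
        - (k • S.cl x0 (ev ι p * ev ι z * (ev ι p)⁻¹)) e₂ * S.cl x0 (ev ι p * ev ι w) e₁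
        = (k : ℤ) * (S.cl x0 (ev ι p * ev ι z * (ev ι p)⁻¹) e₁ * S.cl x0 (ev ι p * ev ι w) e₂
        - S.cl x0 (ev ι p * ev ι z * (ev ι p)⁻¹) e₂ * S.cl x0 (ev ι p * ev ι w) e₁) := by
      simp only [Pi.smul_apply, nsmul_eq_mul]
      ring
    rw [h1]
    exact mul_ne_zero (by exact_mod_cast hk.ne') h
  · intro x u hx hu n hlen
    rw [rp_rp] at hlen ⊢
    exact hlex x u hx hu (n * k) hlen

theorem core_large {G V E α : Type*} [Group G] [Finite V] [Fintype E] [LinearOrder α] [Finite α]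
    (hsep : ConjSeparable G) (S : Sys G V E) (ι : α → G) (f : E → ℚ) (hN : S.Norm ι f)
    (hG : ∃ x, S.Good ι f x) (hreg : (SL ι).IsRegular) :
    ∃ (x0 : V) (X W : G) (n b : ℕ), b < n ∧ (∀ x, S.act x X = x) ∧ (∀ x, S.act x W = x) ∧
      Sys.Ind (S.cl x0 X) (S.cl x0 W) ∧
      IsConj (X ^ n * W * (X ^ (b + 1) * W)) (X ^ (n + 1) * W * (X ^ b * W)) := by
  classical
  obtain ⟨x0, p, z, w, hz, hX, hW, hprX, hprW, hind, hlex⟩ := setup S ι f hN hG
  set X : G := ev ι p * ev ι z * (ev ι p)⁻¹ with hXdef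
  set W : G := ev ι p * ev ι w with hWdef
  obtain ⟨σ, hσ, A, hA⟩ := hreg
  have hmem : ∀ w : List α, w ∈ SL ι ↔ A.eval w ∈ A.accept := by
    intro w
    rw [← hA]
    rfl
  have happ : ∀ u v : List α, A.eval (u ++ v) = A.evalFrom (A.eval u) v :=
    fun u v => A.evalFrom_of_append A.start u v
  -- period of the states reached by p z^n
  obtain ⟨n1, n2, hne, hs⟩ := Finite.exists_ne_map_eq_of_infinite
    (fun n : ℕ => A.eval (p ++ rp n z))
  wlog hlt : n1 < n2 generalizing n1 n2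
  · exact this n2 n1 hne.symm hs.symm (by omega)
  obtain ⟨q, hq, rfl⟩ : ∃ q, 0 < q ∧ n2 = n1 + q := ⟨n2 - n1, by omega, by omega⟩
  have hs' : A.eval (p ++ rp n1 z) = A.evalFrom (A.eval (p ++ rp n1 z)) (rp q z) := by
    rw [← happ, List.append_assoc, ← rp_add]
    exact hs
  have hper : ∀ k : ℕ, A.eval (p ++ rp (n1 + q * k) z) = A.eval (p ++ rp n1 z) := by
    intro k
    induction k with
    | zero => simp
    | succ k ih =>
      have h1 : n1 + q * (k + 1) = (n1 + q * k) + q := by ring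
      rw [h1, rp_add (n1 + q * k) q, ← List.append_assoc, happ, ih]
      exact hs'.symm
  have hshift : ∀ (k : ℕ) (v : List α),
      (p ++ rp (n1 + q * k) z ++ v ∈ SL ι ↔ p ++ rp n1 z ++ v ∈ SL ι) := by
    intro k v
    rw [hmem, hmem, happ (p ++ rp (n1 + q * k) z) v, happ (p ++ rp n1 z) v, hper k]
  have hev : ∀ (n : ℕ) (v : List α),
      ev ι (p ++ rp n z ++ v) = ev ι p * ev ι z ^ n * ev ι v := by
    intro n v
    rw [ev_append, ev_append, ev_rp]
  -- conjugacy separability, uniformly over words of length m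
  have hsep2 : ∀ m : ℕ, ∃ D : ℕ, 0 < D ∧ ∀ (k : ℕ) (v v' : List α), v.length = m →
      v'.length = m →
      IsConj (ev ι (p ++ rp (n1 + q * (D * k)) z ++ v))
        (ev ι (p ++ rp (n1 + q * (D * k)) z ++ v')) →
      IsConj (ev ι (p ++ rp n1 z ++ v)) (ev ι (p ++ rp n1 z ++ v')) := by
    intro m
    have hpair : ∀ y : List α × List α, ∃ d : ℕ, 0 < d ∧ ∀ k : ℕ,
        IsConj (ev ι (p ++ rp (n1 + q * (d * k)) z ++ y.1))
          (ev ι (p ++ rp (n1 + q * (d * k)) z ++ y.2)) →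
        IsConj (ev ι (p ++ rp n1 z ++ y.1)) (ev ι (p ++ rp n1 z ++ y.2)) := by
      intro y
      by_cases hp : IsConj (ev ι (p ++ rp n1 z ++ y.1)) (ev ι (p ++ rp n1 z ++ y.2))
      · exact ⟨1, one_pos, fun _ _ => hp⟩
      · obtain ⟨Q, _, _, F, hF⟩ := hsep _ _ hp
        refine ⟨Nat.card Q, Nat.card_pos, fun k hk => ?_⟩
        exfalso
        apply hF
        have h1 : F (ev ι z) ^ (n1 + q * (Nat.card Q * k)) = F (ev ι z) ^ n1 := by
          rw [pow_add, show q * (Nat.card Q * k) = Nat.card Q * (q * k) by ring, pow_mul,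
            pow_card_eq_one', one_pow, mul_one]
        have h2 := F.map_isConj hk
        simpa only [hev, map_mul, map_pow, h1] using h2
    choose d hd0 hd using hpair
    have hfin : ({y : List α × List α | y.1.length = m ∧ y.2.length = m}).Finite :=
      ((List.finite_length_eq α m).prod (List.finite_length_eq α m)).subset
        (fun y hy => ⟨hy.1, hy.2⟩)
    refine ⟨∏ y ∈ hfin.toFinset, d y, Finset.prod_pos (fun y _ => hd0 y), ?_⟩
    intro k v v' hv hv' hc
    have hin : (v, v') ∈ hfin.toFinset := by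
      rw [Set.Finite.mem_toFinset]; exact ⟨hv, hv'⟩
    obtain ⟨k', hk'⟩ := Finset.dvd_prod_of_mem d hin
    rw [hk', mul_assoc] at hc
    exact hd (v, v') (k' * k) hc
  -- the test words
  set v1 : List α := w ++ (p ++ rp (n1 + 1) z ++ w) with hv1
  set v2 : List α := z ++ (w ++ (p ++ rp n1 z ++ w)) with hv2
  have hlen12 : v2.length = v1.length := by
    rw [hv1, hv2, rp_succ]
    simp only [List.length_append]
    omega
  have hXpow : ∀ n : ℕ, ev ι p * ev ι z ^ n = X ^ n * ev ι p := by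
    intro n
    rw [hXdef, conj_pow, inv_mul_cancel_right]
  have hev1 : ∀ n : ℕ, ev ι (p ++ rp n z ++ v1) = X ^ n * W * (X ^ (n1 + 1) * W) := by
    intro n
    rw [hev, hv1, ev_append, hev, hXpow, hXpow, hWdef]
    simp only [mul_assoc]
  have hev2 : ∀ n : ℕ, ev ι (p ++ rp n z ++ v2) = X ^ (n + 1) * W * (X ^ n1 * W) := by
    intro n
    have h1 : p ++ rp n z ++ v2 = p ++ rp (n + 1) z ++ (w ++ (p ++ rp n1 z ++ w)) := by
      rw [hv2, rp_succ']
      simp only [List.append_assoc]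
    rw [h1, hev, ev_append, hev, hXpow, hXpow, hWdef]
    simp only [mul_assoc]
  -- classes
  set ξ := S.cl x0 X with hξ
  set η := S.cl x0 W with hη
  have hclXW : ∀ n : ℕ, S.cl x0 (X ^ n * W) = n • ξ + η := by
    intro n
    rw [S.cl_mul, cl_pow S (hX x0), act_pow S (hX x0)]
  have hactXW : ∀ (n : ℕ) x, S.act x (X ^ n * W) = x := by
    intro n x
    rw [S.act_mul, act_pow S (hX x), hW]
  have hcl2 : ∀ m n : ℕ, S.cl x0 (X ^ m * W * (X ^ n * W)) = (m + n) • ξ + 2 • η := by
    intro m n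
    rw [S.cl_mul, hclXW, hactXW, hclXW, add_smul, two_smul]
    abel
  have hzlen : z.length ≠ 0 := fun h => hz (List.length_eq_zero_iff.1 h)
  have hrplen : ∀ n : ℕ, (rp n z).length = n * z.length := by
    intro n
    rw [rp, List.length_flatten]
    simp
  have hpr2 : ∀ m n : ℕ, pr f (S.cl x0 (X ^ m * W * (X ^ n * W)))
      = (m + n) * z.length + 2 * (p.length + w.length) := by
    intro m n
    rw [hcl2, pr_add, pr_nsmul, pr_nsmul, hprX, hprW]
    push_cast
    ring
  -- choice of the exponent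
  obtain ⟨D, hD, hDsep⟩ := hsep2 v1.length
  obtain ⟨k, hk, hgood⟩ : ∃ k : ℕ, 0 < k ∧ ∀ (x : V) (u : List α), S.TC ι f x u →
      S.cl x (ev ι u) = (n1 + q * (D * k) + (n1 + 1)) • ξ + 2 • η → S.Good ι f x := by
    by_contra hcon
    push Not at hcon
    have hcon' : ∀ k : ℕ, ∃ x u, S.TC ι f x u ∧
        S.cl x (ev ι u) = (n1 + q * (D * (k + 1)) + (n1 + 1)) • ξ + 2 • η ∧
        ¬ S.Good ι f x := fun k => hcon (k + 1) (by omega)
    choose xs us h1 h2 h3 using hcon'
    obtain ⟨k1, k2, hk12, hxs⟩ := Finite.exists_ne_map_eq_of_infinite xs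
    apply h3 k1
    refine ⟨us k1, us k2, h1 k1, by rw [hxs]; exact h1 k2, ?_⟩
    rw [h2 k1, hxs, h2 k2]
    apply ind_comb hind
    intro h
    apply hk12
    have h4 : q * (D * (k1 + 1)) = q * (D * (k2 + 1)) := by omega
    have h5 := Nat.eq_of_mul_eq_mul_left hq h4
    have h6 := Nat.eq_of_mul_eq_mul_left hD h5
    omega
  set n := n1 + q * (D * k) with hn
  have hnn1 : n1 < n := by
    have : 0 < q * (D * k) := Nat.mul_pos hq (Nat.mul_pos hD hk)
    omega
  -- the form of the representative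
  have hform : ∀ v : List α, S.act x0 (ev ι (p ++ rp n z ++ v)) = x0 →
      S.cl x0 (ev ι (p ++ rp n z ++ v)) = (n + (n1 + 1)) • ξ + 2 • η →
      pr f (S.cl x0 (ev ι (p ++ rp n z ++ v))) = (p ++ rp n z ++ v).length →
      ∃ l : List α, l.length = v.length ∧ p ++ rp n z ++ l ∈ SL ι ∧
        IsConj (ev ι (p ++ rp n z ++ l)) (ev ι (p ++ rp n z ++ v)) := by
    intro v hact hcl hpr
    obtain ⟨u, hu, hc⟩ := exists_SL ι (p ++ rp n z ++ v)
    obtain ⟨g, hg⟩ := isConj_iff.1 hc.symm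
    obtain ⟨ha, hb⟩ := cl_conj S hact g
    rw [hg] at ha hb
    have hlen := hu (p ++ rp n z ++ v) hc.symm
    have hle : ((p ++ rp n z ++ v).length : ℚ) ≤ u.length := by
      rw [← hpr, ← hb]
      exact hN _ _ ha
    have hle' : (p ++ rp n z ++ v).length ≤ u.length := by exact_mod_cast hle
    have hlen2 : u.length = (p ++ rp n z ++ v).length ∧
        (u = p ++ rp n z ++ v ∨ u < p ++ rp n z ++ v) := by
      rcases hlen with h | h
      · omega
      · exact h
    have hTC : S.TC ι f (S.act x0 g⁻¹) u := by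
      refine ⟨ha, ?_⟩
      rw [hb, hpr, hlen2.1]
    have hgd := hgood _ u hTC (by rw [hb, hcl])
    have h1 := hlex _ u hgd hTC n (by
      rw [hlen2.1, List.length_append (bs := v)]
      omega)
    have h2 : u ≤ p ++ rp n z ++ v := by
      rcases hlen2.2 with h | h
      · exact h.le
      · exact h.le
    have h3 := take_mono (p ++ rp n z).length u _ h2 hlen2.1
    rw [List.take_left] at h3
    have h4 : u.take (p ++ rp n z).length = p ++ rp n z := le_antisymm h3 h1
    have h5 : p ++ rp n z ++ u.drop (p ++ rp n z).length = u :=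
      calc p ++ rp n z ++ u.drop (p ++ rp n z).length
          = u.take (p ++ rp n z).length ++ u.drop (p ++ rp n z).length := by rw [h4]
        _ = u := List.take_append_drop _ _
    refine ⟨u.drop (p ++ rp n z).length, ?_, ?_, ?_⟩
    · rw [List.length_drop, hlen2.1, List.length_append (bs := v)]
      omega
    · rw [h5]; exact hu
    · rw [h5]; exact hc
  obtain ⟨l1, hl1, hS1, hc1⟩ := hform v1 (by rw [hev1, S.act_mul, hactXW, hactXW])
    (by rw [hev1, hcl2]) (by
      rw [hev1, hpr2, hv1]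
      simp only [List.length_append, hrplen]
      push_cast
      ring)
  obtain ⟨l2, hl2, hS2, hc2⟩ := hform v2 (by rw [hev2, S.act_mul, hactXW, hactXW])
    (by rw [hev2, hcl2]; congr 2; omega) (by
      rw [hev2, hpr2, hv2]
      simp only [List.length_append, hrplen]
      push_cast
      ring)
  have h1 := hDsep k l1 v1 hl1 rfl hc1
  have h2 := hDsep k l2 v2 (by omega) hlen12 hc2
  have hrot : IsConj (ev ι (p ++ rp n1 z ++ v1)) (ev ι (p ++ rp n1 z ++ v2)) := by
    rw [hev1, hev2, isConj_iff]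
    refine ⟨X ^ (n1 + 1) * W, ?_⟩
    group
  have h3 := (h1.trans hrot).trans h2.symm
  have hw1 : p ++ rp n1 z ++ l1 ∈ SL ι := (hshift (D * k) l1).1 hS1
  have hw2 : p ++ rp n1 z ++ l2 ∈ SL ι := (hshift (D * k) l2).1 hS2
  have heq := SL_unique ι hw1 hw2 h3
  have hll : l1 = l2 := List.append_cancel_left heq
  subst hll
  have h4 := hc1.symm.trans hc2
  rw [hev1, hev2] at h4
  exact ⟨x0, X, W, n, n1, hnn1, hX, hW, hind, h4⟩

end Pool.Agent.H73.D3
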