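import Pool.Agent.H73.D3.Basic

/-!
# Module Coc [H73 D3]: cocycles on a free group with prescribed values on the generators

PROOF. Each generator `i` gives the permutation `(p, m) ↦ (p * q (of i), m * u p i)` of `P × Γ`;
`FreeGroup.lift` into `(Equiv.Perm (P × Γ))ᵐᵒᵖ` gives `Θ w` with `Θ (w w') = Θ w' ∘ Θ w` (unop);
every `Θ w` commutes with left multiplication by `Γ` on the second coordinate and acts on the first
by right multiplication with `q w` (induction on `w`). `D p w = (Θ w (p, 1)).2`.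
-/

set_option autoImplicit false

namespace Pool.Agent.H73.D3

private def gperm {P Γ : Type*} [Group P] [Group Γ] (g : P) (v : P → Γ) :
    Equiv.Perm (P × Γ) where
  toFun x := (x.1 * g, x.2 * v x.1)
  invFun x := (x.1 * g⁻¹, x.2 * (v (x.1 * g⁻¹))⁻¹)
  left_inv := by
    rintro ⟨p, m⟩
    simp
  right_inv := by
    rintro ⟨p, m⟩
    simp

private def Gd0 {P Γ : Type*} [Group P] [Group Γ] (σ : Equiv.Perm (P × Γ)) (g : P) : Prop :=
  ∀ p m, σ (p, m) = (p * g, m * (σ (p, 1)).2)

private theorem gd0_one {P Γ : Type*} [Group P] [Group Γ] :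
    Gd0 (1 : Equiv.Perm (P × Γ)) (1 : P) := by
  intro p m
  simp

private theorem gd0_gperm {P Γ : Type*} [Group P] [Group Γ] (g : P) (v : P → Γ) :
    Gd0 (gperm g v) g := by
  intro p m
  show (p * g, m * v p) = (p * g, m * (1 * v p))
  rw [one_mul]

private theorem gd0_inv {P Γ : Type*} [Group P] [Group Γ] {σ : Equiv.Perm (P × Γ)} {g : P}
    (h : Gd0 σ g) : Gd0 σ⁻¹ g⁻¹ := by
  have key : ∀ p m, σ⁻¹ (p, m) = (p * g⁻¹, m * ((σ (p * g⁻¹, 1)).2)⁻¹) := by
    intro p m
    rw [Equiv.Perm.inv_eq_iff_eq, h]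
    ext
    · simp
    · simp
  intro p m
  rw [key p m, key p 1]
  ext
  · rfl
  · simp

private theorem gd0_mul {P Γ : Type*} [Group P] [Group Γ] {σ τ : Equiv.Perm (P × Γ)} {g g' : P}
    (h : Gd0 σ g) (h' : Gd0 τ g') : Gd0 (τ * σ) (g * g') := by
  intro p m
  have e1 : (τ * σ) (p, m) = τ (σ (p, m)) := rfl
  have e2 : (τ * σ) (p, 1) = τ (σ (p, 1)) := rfl
  have hd := h p
  generalize (σ (p, 1)).2 = d at hd
  rw [e1, e2, hd m, hd 1, h' (p * g) (m * d), h' (p * g) (1 * d)]
  ext
  · simp only [mul_assoc]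
  · simp only [one_mul, mul_assoc]

theorem exists_coc {P Γ : Type*} [Group P] [Group Γ] (q : FreeGroup (Fin 2) →* P)
    (u : P → Fin 2 → Γ) :
    ∃ D : P → FreeGroup (Fin 2) → Γ,
      (∀ p w w', D p (w * w') = D p w * D (p * q w) w') ∧
      (∀ p i, D p (FreeGroup.of i) = u p i) := by
  let Θ : FreeGroup (Fin 2) →* (Equiv.Perm (P × Γ))ᵐᵒᵖ :=
    FreeGroup.lift (fun i => MulOpposite.op (gperm (q (FreeGroup.of i)) (fun p => u p i)))
  have hof : ∀ i, (Θ (FreeGroup.of i)).unop = gperm (q (FreeGroup.of i)) (fun p => u p i) := by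
    intro i
    have h1 : Θ (FreeGroup.of i) =
        MulOpposite.op (gperm (q (FreeGroup.of i)) (fun p => u p i)) := FreeGroup.lift_apply_of
    rw [h1, MulOpposite.unop_op]
  have hmul : ∀ w w', (Θ (w * w')).unop = (Θ w').unop * (Θ w).unop := by
    intro w w'
    rw [map_mul, MulOpposite.unop_mul]
  have hgood : ∀ w, Gd0 (Θ w).unop (q w) := by
    intro w
    induction w using FreeGroup.induction_on with
    | C1 =>
      rw [map_one, map_one, MulOpposite.unop_one]
      exact gd0_one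
    | of i =>
      rw [hof i]
      exact gd0_gperm _ _
    | inv_of i h =>
      rw [map_inv, map_inv, MulOpposite.unop_inv]
      exact gd0_inv h
    | mul x y hx hy =>
      rw [hmul x y, map_mul]
      exact gd0_mul hx hy
  refine ⟨fun p w => ((Θ w).unop (p, 1)).2, ?_, ?_⟩
  · intro p w w'
    show ((Θ (w * w')).unop (p, 1)).2 =
      ((Θ w).unop (p, 1)).2 * ((Θ w').unop (p * q w, 1)).2
    have e1 : (Θ (w * w')).unop (p, 1) = (Θ w').unop ((Θ w).unop (p, 1)) := by
      rw [hmul w w']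
      rfl
    rw [e1, hgood w p 1, hgood w' (p * q w) (1 * ((Θ w).unop (p, 1)).2), one_mul]
  · intro p i
    show ((Θ (FreeGroup.of i)).unop (p, 1)).2 = u p i
    rw [hof i]
    show (1 : Γ) * u p i = u p i
    rw [one_mul]

end Pool.Agent.H73.D3
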