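import Pool.Agent.H73.D3.Lp

/-!
# Module Gd [H73 D3]: a vertex with two independent tight closed words

`hgirth`: closed words shorter than `R` have class zero. `hrank`: fewer than or equal to `|V| / R`
vectors never span all closed classes.

PROOF. (1) `lp_vertex` with `J` = the closed words `(x, w)` with `1 ≤ |w| ≤ |V|`, `b = |w|`; `hsym`:
the inverse word (letterwise inverse, reversed) of a closed word is closed of the same length with
the opposite class. Get `f`. (2) `Norm`: strong induction on `|w|`: a closed word with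
`|w| > |V|` splits as `w₁ w₂ w₃` with `w₂` closed at `x w₁`, `0 < |w₂| < |w|`, and `w₁ w₃` closed at
`x`; `w = []` is clear. In the same way every closed class is a sum of classes of `J`, and a tight
closed word splits into tight closed words.
(3) Suppose no vertex is good. For `x` on some nonempty tight closed word let
`nx = cl x w / |w| ∈ E → ℚ` (`w` tight closed at `x`, nonempty): independent of `w` because `x` is
not good and `pr f (cl x w) = |w|`. Two vertices on a common tight closed word have the same `nx`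
(rotate the word). Every value `v` of `x ↦ nx` is taken at least `R` times: take a
nonempty tight closed word of minimal length among those at vertices with this value; its vertices
are distinct (else split) and all have the value `v`, and its length is `≥ R` by `hgirth` (its
class is not zero since `pr f = |w| > 0`). So there are at most `|V| / R` values; `hrank` gives
`u` orthogonal to all values and not orthogonal to some closed class: contradiction to
`lp_vertex` (all tight closed words have classes that are multiples of the values, so `u` kills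
all of `J`, hence all closed classes).
-/

set_option autoImplicit false

namespace Pool.Agent.H73.D3

section aux

variable {G V E α : Type*} [Group G]

private theorem act_app (S : Sys G V E) (ι : α → G) (x : V) (a b : List α) :
    S.act x (ev ι (a ++ b)) = S.act (S.act x (ev ι a)) (ev ι b) := by
  rw [ev_append, S.act_mul]

private theorem cl_app (S : Sys G V E) (ι : α → G) (x : V) (a b : List α) :
    S.cl x (ev ι (a ++ b)) = S.cl x (ev ι a) + S.cl (S.act x (ev ι a)) (ev ι b) := by
  rw [ev_append, S.cl_mul]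

private theorem split (S : Sys G V E) (ι : α → G) (x : V) (w : List α) (i j : ℕ) (hij : i < j)
    (hj : j ≤ w.length)
    (h : S.act x (ev ι (w.take i)) = S.act x (ev ι (w.take j)))
    (hw : S.act x (ev ι w) = x) :
    ∃ w₁ w₂ w₃ : List α, w₁ = w.take i ∧ (w₁ ++ w₃).length + w₂.length = w.length ∧
      w₂.length = j - i ∧
      S.act (S.act x (ev ι w₁)) (ev ι w₂) = S.act x (ev ι w₁) ∧
      S.act x (ev ι (w₁ ++ w₃)) = x ∧
      S.cl x (ev ι w) = S.cl x (ev ι (w₁ ++ w₃)) + S.cl (S.act x (ev ι w₁)) (ev ι w₂) := by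
  have e1 : w.take j = w.take i ++ (w.take j).drop i := by
    have : (w.take j).take i = w.take i := by
      rw [List.take_take, min_eq_left hij.le]
    rw [← this, List.take_append_drop]
  have e2 : w = w.take i ++ ((w.take j).drop i ++ w.drop j) := by
    rw [← List.append_assoc, ← e1, List.take_append_drop]
  have hc : S.act (S.act x (ev ι (w.take i))) (ev ι ((w.take j).drop i)) =
      S.act x (ev ι (w.take i)) := by
    rw [← act_app, ← e1, h]
  refine ⟨w.take i, (w.take j).drop i, w.drop j, rfl, ?_, ?_, hc, ?_, ?_⟩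
  · simp only [List.length_append, List.length_take, List.length_drop]
    omega
  · simp only [List.length_take, List.length_drop]
    omega
  · rw [act_app, h, ← act_app, List.take_append_drop, hw]
  · conv_lhs => rw [e2]
    rw [cl_app, cl_app, cl_app, hc]
    abel

private theorem rep [Fintype V] (S : Sys G V E) (ι : α → G) (x : V) (w : List α)
    (h : Fintype.card V < w.length) :
    ∃ i j : ℕ, i < j ∧ j < w.length ∧
      S.act x (ev ι (w.take i)) = S.act x (ev ι (w.take j)) := by
  obtain ⟨a, b, hab, he⟩ := Fintype.exists_ne_map_eq_of_card_lt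
    (fun k : Fin w.length => S.act x (ev ι (w.take k))) (by simpa using h)
  rcases lt_or_gt_of_ne hab with hlt | hlt
  · exact ⟨a, b, hlt, b.2, he⟩
  · exact ⟨b, a, hlt, a.2, he.symm⟩

/-- induction over closed words: short words and splitting -/
private theorem closed_ind [Fintype V] (S : Sys G V E) (ι : α → G)
    (P : (n : ℕ) → (E → ℤ) → Prop) (h0 : P 0 0)
    (hadd : ∀ m n c d, P m c → P n d → P (m + n) (c + d))
    (hJ : ∀ (x : V) (w : List α), 1 ≤ w.length → w.length ≤ Fintype.card V →
      S.act x (ev ι w) = x → P w.length (S.cl x (ev ι w))) :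
    ∀ (n : ℕ) (x : V) (w : List α), w.length = n → S.act x (ev ι w) = x →
      P w.length (S.cl x (ev ι w)) := by
  intro n
  induction n using Nat.strong_induction_on with
  | _ n ih =>
    intro x w hn hw
    rcases Nat.eq_zero_or_pos w.length with h | h
    · have : w = [] := List.length_eq_zero_iff.1 h
      subst this
      rw [ev_nil, S.cl_one]
      exact h0
    · by_cases h2 : w.length ≤ Fintype.card V
      · exact hJ x w h h2 hw
      · obtain ⟨i, j, hij, hj, he⟩ := rep S ι x w (by omega)
        obtain ⟨w₁, w₂, w₃, -, hl, hl2, hc1, hc2, hcl⟩ := split S ι x w i j hij hj.le he hw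
        have p1 := ih _ (by omega) x (w₁ ++ w₃) rfl hc2
        have p2 := ih _ (by omega) _ w₂ rfl hc1
        have p3 := hadd _ _ _ _ p1 p2
        rw [hl, ← hcl] at p3
        exact p3

private theorem rot (S : Sys G V E) (ι : α → G) (x : V) (w : List α) (i : ℕ)
    (hw : S.act x (ev ι w) = x) :
    S.act (S.act x (ev ι (w.take i))) (ev ι (w.drop i ++ w.take i)) =
      S.act x (ev ι (w.take i)) ∧
    S.cl (S.act x (ev ι (w.take i))) (ev ι (w.drop i ++ w.take i)) = S.cl x (ev ι w) ∧
    (w.drop i ++ w.take i).length = w.length := by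
  have h1 : S.act (S.act x (ev ι (w.take i))) (ev ι (w.drop i)) = x := by
    rw [← act_app, List.take_append_drop, hw]
  refine ⟨?_, ?_, ?_⟩
  · rw [act_app, h1]
  · rw [cl_app, h1]
    conv_rhs => rw [← List.take_append_drop i w]
    rw [cl_app, add_comm]
  · simp only [List.length_append, List.length_take, List.length_drop]
    omega

private theorem inv_word (ι : α → G) (hinv : ∀ a : α, ∃ b : α, ι b = (ι a)⁻¹)
    (w : List α) : ∃ w' : List α, w'.length = w.length ∧ ev ι w' = (ev ι w)⁻¹ := by
  induction w with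
  | nil => exact ⟨[], rfl, by simp [ev_nil]⟩
  | cons a w ih =>
    obtain ⟨w', h1, h2⟩ := ih
    obtain ⟨b, hb⟩ := hinv a
    refine ⟨w' ++ [b], by simp [h1], ?_⟩
    rw [ev_append, h2, ev_cons, ev_cons, ev_nil, hb, mul_one, mul_inv_rev]

private theorem cl_inv (S : Sys G V E) (x : V) (g : G) (h : S.act x g = x) :
    S.act x g⁻¹ = x ∧ S.cl x g⁻¹ = - S.cl x g := by
  constructor
  · have := S.act_mul x g g⁻¹
    rw [mul_inv_cancel, S.act_one, h] at this
    exact this.symm
  · have := S.cl_mul x g g⁻¹
    rw [mul_inv_cancel, S.cl_one, h] at this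
    rw [eq_neg_iff_add_eq_zero, add_comm]
    exact this.symm

private theorem pr_neg [Fintype E] (u : E → ℚ) (c : E → ℤ) : pr u (-c) = - pr u c := by
  simp [pr, Finset.sum_neg_distrib]

private theorem pr_zero [Fintype E] (u : E → ℚ) : pr u 0 = 0 := by
  simp [pr]

/-- the value of a closed word -/
private noncomputable def vl (S : Sys G V E) (ι : α → G) (x : V) (w : List α) : E → ℚ :=
  fun e => (S.cl x (ev ι w) e : ℚ) / (w.length : ℚ)

private theorem vl_eq [Fintype E] (S : Sys G V E) (ι : α → G) (f : E → ℚ) (x : V)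
    (hx : ¬ S.Good ι f x) (w w' : List α) (h : S.TC ι f x w) (h' : S.TC ι f x w')
    (hw : w ≠ []) (hw' : w' ≠ []) : vl S ι x w = vl S ι x w' := by
  have hp : (0 : ℚ) < w.length := by exact_mod_cast List.length_pos_iff.2 hw
  have hp' : (0 : ℚ) < w'.length := by exact_mod_cast List.length_pos_iff.2 hw'
  have hn : ∀ e₁ e₂ : E, S.cl x (ev ι w) e₁ * S.cl x (ev ι w') e₂ -
      S.cl x (ev ι w) e₂ * S.cl x (ev ι w') e₁ = 0 := by
    intro e₁ e₂
    by_contra hc
    exact hx ⟨w, w', h, h', e₁, e₂, hc⟩
  funext e
  unfold vl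
  rw [div_eq_div_iff hp.ne' hp'.ne', ← h'.2, ← h.2]
  unfold pr
  rw [Finset.mul_sum, Finset.mul_sum]
  refine Finset.sum_congr rfl fun e₂ _ => ?_
  have h1 := hn e e₂
  have h2 : ((S.cl x (ev ι w) e : ℚ) * (S.cl x (ev ι w') e₂ : ℚ) -
      (S.cl x (ev ι w) e₂ : ℚ) * (S.cl x (ev ι w') e : ℚ)) = 0 := by exact_mod_cast h1
  linear_combination (f e₂) * h2

private theorem vl_rot (S : Sys G V E) (ι : α → G) (x : V) (w : List α) (i : ℕ)
    (hw : S.act x (ev ι w) = x) :
    vl S ι (S.act x (ev ι (w.take i))) (w.drop i ++ w.take i) = vl S ι x w := by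
  obtain ⟨-, h2, h3⟩ := rot S ι x w i hw
  funext e
  unfold vl
  rw [h2, h3]

end aux

theorem exists_good {G V E α : Type*} [Group G] [Fintype V] [Fintype E] [Finite α]
    (S : Sys G V E) (ι : α → G) (hgen : ∀ g : G, ∃ w : List α, ev ι w = g)
    (hinv : ∀ a : α, ∃ b : α, ι b = (ι a)⁻¹) (R : ℕ) (hR : 0 < R)
    (hgirth : ∀ (x : V) (w : List α), w.length < R → S.act x (ev ι w) = x →
      S.cl x (ev ι w) = 0)
    (hrank : ∀ T : Finset (E → ℚ), T.card * R ≤ Fintype.card V →
      ∃ u : E → ℚ, (∀ v ∈ T, ∑ e, u e * v e = 0) ∧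
        ∃ (x : V) (g : G), S.act x g = x ∧ pr u (S.cl x g) ≠ 0) :
    ∃ f : E → ℚ, S.Norm ι f ∧ ∃ x : V, S.Good ι f x := by
  classical
  let J := {p : V × List α // (1 ≤ p.2.length ∧ p.2.length ≤ Fintype.card V) ∧
    S.act p.1 (ev ι p.2) = p.1}
  have : Finite J := by
    have hf : (Set.univ ×ˢ {l : List α | l.length ≤ Fintype.card V} : Set (V × List α)).Finite :=
      Set.finite_univ.prod (List.finite_length_le α _)
    refine (hf.subset ?_).to_subtype
    intro p hp
    exact ⟨Set.mem_univ _, hp.1.2⟩
  obtain ⟨f, hf1, hf2⟩ := lp_vertex (J := J) (fun p => S.cl p.1.1 (ev ι p.1.2))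
    (fun p => (p.1.2.length : ℚ)) (by
      intro p
      have := p.2.1.1
      show (0 : ℚ) < (p.1.2.length : ℚ)
      exact_mod_cast this) (by
      rintro u ⟨p, hp⟩
      rcases lt_or_gt_of_ne hp with h | h
      · obtain ⟨w', hl, he⟩ := inv_word ι hinv p.1.2
        obtain ⟨h1, h2⟩ := cl_inv S p.1.1 (ev ι p.1.2) p.2.2
        refine ⟨⟨(p.1.1, w'), ⟨?_, ?_⟩, ?_⟩, ?_⟩
        · show 1 ≤ w'.length
          rw [hl]; exact p.2.1.1
        · show w'.length ≤ _
          rw [hl]; exact p.2.1.2
        · show S.act p.1.1 (ev ι w') = p.1.1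
          rw [he]; exact h1
        · show 0 < pr u (S.cl p.1.1 (ev ι w'))
          rw [he, h2, pr_neg]
          linarith
      · exact ⟨p, h⟩)
  have hnorm : S.Norm ι f := by
    intro x w hw
    exact closed_ind S ι (fun n c => pr f c ≤ n) (by simp [pr_zero])
      (fun m n c d h1 h2 => by
        rw [pr_add]
        push_cast
        linarith)
      (fun x w h1 h2 h3 => hf1 ⟨(x, w), ⟨h1, h2⟩, h3⟩) w.length x w rfl hw
  refine ⟨f, hnorm, ?_⟩
  by_contra hng
  push Not at hng
  -- the vertices on tight closed words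
  let X : Finset V := Finset.univ.filter fun x => ∃ w : List α, w ≠ [] ∧ S.TC ι f x w
  let val : V → (E → ℚ) := fun x =>
    if h : ∃ w : List α, w ≠ [] ∧ S.TC ι f x w then vl S ι x h.choose else 0
  have hval : ∀ (x : V) (w : List α), w ≠ [] → S.TC ι f x w → val x = vl S ι x w := by
    intro x w hw ht
    have h : ∃ w : List α, w ≠ [] ∧ S.TC ι f x w := ⟨w, hw, ht⟩
    show (if h : ∃ w : List α, w ≠ [] ∧ S.TC ι f x w then vl S ι x h.choose else 0) = _
    rw [dif_pos h]
    exact vl_eq S ι f x (hng x) _ _ h.choose_spec.2 ht h.choose_spec.1 hw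
  have hrot : ∀ (x : V) (w : List α) (i : ℕ), w ≠ [] → S.TC ι f x w →
      (S.act x (ev ι (w.take i))) ∈ X ∧ val (S.act x (ev ι (w.take i))) = vl S ι x w := by
    intro x w i hw ht
    obtain ⟨h1, h2, h3⟩ := rot S ι x w i ht.1
    have hne : w.drop i ++ w.take i ≠ [] := by
      intro h
      rw [h] at h3
      exact hw (List.length_eq_zero_iff.1 h3.symm)
    have ht' : S.TC ι f (S.act x (ev ι (w.take i))) (w.drop i ++ w.take i) := by
      refine ⟨h1, ?_⟩
      rw [h2, h3]
      exact ht.2
    refine ⟨?_, ?_⟩
    · exact Finset.mem_filter.2 ⟨Finset.mem_univ _, _, hne, ht'⟩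
    · rw [hval _ _ hne ht', vl_rot S ι x w i ht.1]
  have hfib : ∀ v ∈ X.image val, R ≤ (X.filter fun x => val x = v).card := by
    intro v hv
    obtain ⟨x0, hx0, hxv⟩ := Finset.mem_image.1 hv
    obtain ⟨-, w0, hw0, ht0⟩ := Finset.mem_filter.1 hx0
    have hex : ∃ n : ℕ, ∃ (x : V) (w : List α), w.length = n ∧ w ≠ [] ∧ S.TC ι f x w ∧
        val x = v := ⟨_, x0, w0, rfl, hw0, ht0, hxv⟩
    obtain ⟨x, w, hwn, hwne, ht, hxv'⟩ := Nat.find_spec hex
    have hmin : ∀ (y : V) (z : List α), z ≠ [] → S.TC ι f y z → val y = v →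
        w.length ≤ z.length := by
      intro y z hz hty hyv
      rw [hwn]
      exact Nat.find_min' hex ⟨y, z, rfl, hz, hty, hyv⟩
    have hvw : vl S ι x w = v := by rw [← hval x w hwne ht, hxv']
    have hRl : R ≤ w.length := by
      by_contra hc
      push Not at hc
      have h0 := hgirth x w hc ht.1
      have h1 := ht.2
      rw [h0, pr_zero] at h1
      have : w.length = 0 := by exact_mod_cast h1.symm
      exact hwne (List.length_eq_zero_iff.1 this)
    have hinj : Function.Injective (fun k : Fin w.length => S.act x (ev ι (w.take k))) := by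
      have key : ∀ i j : ℕ, i < j → j < w.length →
          S.act x (ev ι (w.take i)) = S.act x (ev ι (w.take j)) → False := by
        intro i j hij hj he
        obtain ⟨w₁, w₂, w₃, hw1, hl, hl2, hc1, hc2, hcl⟩ := split S ι x w i j hij hj.le he ht.1
        have b1 := hnorm _ _ hc1
        have b2 := hnorm _ _ hc2
        have b3 := ht.2
        rw [hcl, pr_add] at b3
        have hl' : ((w₁ ++ w₃).length : ℚ) + (w₂.length : ℚ) = (w.length : ℚ) := by
          exact_mod_cast hl
        have t2 : S.TC ι f (S.act x (ev ι w₁)) w₂ := ⟨hc1, by linarith⟩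
        have hne : w₂ ≠ [] := by
          intro h
          rw [h] at hl2
          simp at hl2
          omega
        have hv2 : val (S.act x (ev ι w₁)) = v := by
          rw [hw1, (hrot x w i hwne ht).2, hvw]
        have := hmin _ _ hne t2 hv2
        omega
      intro a b hab
      simp only at hab
      by_contra hne
      rcases lt_or_gt_of_ne hne with h | h
      · exact key a b h b.2 hab
      · exact key b a h a.2 hab.symm
    calc R ≤ w.length := hRl
      _ = (Finset.univ.image (fun k : Fin w.length => S.act x (ev ι (w.take k)))).card := by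
          rw [Finset.card_image_of_injective _ hinj, Finset.card_univ, Fintype.card_fin]
      _ ≤ _ := by
          refine Finset.card_le_card ?_
          intro y hy
          obtain ⟨k, -, rfl⟩ := Finset.mem_image.1 hy
          obtain ⟨h1, h2⟩ := hrot x w k hwne ht
          exact Finset.mem_filter.2 ⟨h1, by rw [h2, hvw]⟩
  have hcard : (X.image val).card * R ≤ Fintype.card V := by
    have h1 : (X.image val).card * R ≤ X.card := by
      rw [mul_comm]
      exact Finset.mul_card_image_le_card_of_maps_to
        (fun a ha => Finset.mem_image_of_mem val ha) R hfib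
    exact h1.trans (Finset.card_le_univ X)
  obtain ⟨u, hu1, x, g, hxg, hne⟩ := hrank _ hcard
  have hJ0 := hf2 u (by
    intro p hp
    have hl : (0 : ℚ) < (p.1.2.length : ℚ) := by exact_mod_cast p.2.1.1
    have hpne : p.1.2 ≠ [] := by
      intro h
      have := p.2.1.1
      rw [h] at this
      simp at this
    have ht : S.TC ι f p.1.1 p.1.2 := ⟨p.2.2, hp⟩
    have hm : vl S ι p.1.1 p.1.2 ∈ X.image val := by
      rw [← hval _ _ hpne ht]
      exact Finset.mem_image_of_mem val (Finset.mem_filter.2 ⟨Finset.mem_univ _, _, hpne, ht⟩)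
    have h0 := hu1 _ hm
    unfold vl at h0
    show ∑ e, u e * ((S.cl p.1.1 (ev ι p.1.2) e : ℤ) : ℚ) = 0
    have h3 : ∑ e, u e * ((S.cl p.1.1 (ev ι p.1.2) e : ℤ) : ℚ) =
        (p.1.2.length : ℚ) * ∑ e, u e * (((S.cl p.1.1 (ev ι p.1.2) e : ℤ) : ℚ) /
          (p.1.2.length : ℚ)) := by
      rw [Finset.mul_sum]
      refine Finset.sum_congr rfl fun e _ => ?_
      field_simp
    rw [h3, h0, mul_zero])
  obtain ⟨w, rfl⟩ := hgen g
  exact hne (closed_ind S ι (fun _ c => pr u c = 0) (pr_zero u)
    (fun m n c d h1 h2 => by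
      rw [pr_add, h1, h2, add_zero])
    (fun x w h1 h2 h3 => hJ0 ⟨(x, w), ⟨h1, h2⟩, h3⟩) w.length x w rfl hxg)

end Pool.Agent.H73.D3
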