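import Pool.Agent.H73.D3.Basic

/-!
# Module Gr [H73 D3]: the lexicographically least tight path

PROOF. An edge `(x, a)` is tight if `TC x (a :: r)` for some `r`. (1) If `x` is good then there
is a tight edge at `x` (a good vertex has a nonempty tight closed word), and if moreover `(x, a)`
is tight then `x a` is good: with `TC x (a :: r)` the words `r a`, `r w₁ a`, `r w₂ a` are tight
closed at `x a` (rotation; `cl` of a closed word is invariant under rotation) with classes `e`,
`e + c₁`, `e + c₂`; if no two are independent then (as `e ≠ 0`, `pr f e > 0`) `c₁ c₂` would not be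
independent. (2) `g x` = least letter `a` with `(x, a)` tight (finite alphabet), next vertex `x (g x)`:
greedy word `W x k` of length `k` (`W x (k+1) = g x :: W (x (g x)) k`). If `x` is good and
`TC x u` then `W x k ≤ u.take k` for `k ≤ u.length` (all edges along a tight closed word are
tight: rotate). (3) Choose `x0` good such that `W x0 k ≤ W x k` for all good `x` and all `k`:
for each `k` there is a minimiser, one vertex is a minimiser for infinitely many `k`, hence for all
`k` (a prefix of the minimiser of length `k` is minimal for smaller lengths; lists of equal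
length). (4) The greedy orbit of `x0` is eventually periodic: `p = W x0 m`, `z = W x1 l` with
`x1 = x0 p`, `x1 z = x1`, `l > 0`; `p ++ rp n z = W x0 (m + n l)`. (5) a closed word all whose
edges are tight is tight: choose returns `r_i` for the edges `a_i`; the word
`a_1 ... a_k r_k ... r_1` is closed, its class is the sum of the classes of the `a_i r_i`, so its
pairing is its length; both parts are closed, by `Norm` both are tight. So `TC x1 z`, and
`p ++ r` is tight closed at `x0` for the concatenation `r` of the returns.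
-/

set_option autoImplicit false

namespace Pool.Agent.H73.D3

private theorem cle {α : Type*} [LinearOrder α] (a b : α) (u v : List α) :
    a :: u ≤ b :: v ↔ a < b ∨ a = b ∧ u ≤ v := by
  have h : a :: u < b :: v ↔ a < b ∨ a = b ∧ u < v := List.cons_lt_cons_iff
  rw [le_iff_lt_or_eq, le_iff_lt_or_eq, h, List.cons.injEq]
  tauto

private theorem nle {α : Type*} [LinearOrder α] (u : List α) : [] ≤ u := by
  cases u with
  | nil => exact le_rfl
  | cons a u => exact le_of_lt (List.nil_lt_cons a u)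

private theorem cnn {α : Type*} [LinearOrder α] (a : α) (u : List α) : ¬ a :: u ≤ [] := by
  intro h
  exact absurd h (not_le.2 (List.nil_lt_cons a u))

private theorem take_le {α : Type*} [LinearOrder α] (k : ℕ) : ∀ u v : List α, u ≤ v → u.take k ≤ v.take k := by
  induction k with
  | zero =>
    intro u v _
    rw [List.take_zero]
    exact nle _
  | succ k ih =>
    intro u v h
    cases u with
    | nil =>
      rw [List.take_nil]
      exact nle _
    | cons a u =>
      cases v with
      | nil => exact absurd h (cnn a u)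
      | cons b v =>
        rw [List.take_succ_cons, List.take_succ_cons, cle]
        rcases (cle a b u v).1 h with h1 | ⟨h1, h2⟩
        · exact Or.inl h1
        · exact Or.inr ⟨h1, ih u v h2⟩

namespace Sys

variable {G V E α : Type*} [Group G]

theorem act_ev_append (S : Sys G V E) (ι : α → G) (x : V) (u v : List α) :
    S.act x (ev ι (u ++ v)) = S.act (S.act x (ev ι u)) (ev ι v) := by
  rw [ev_append, S.act_mul]

theorem act_ev_cons (S : Sys G V E) (ι : α → G) (x : V) (a : α) (v : List α) :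
    S.act x (ev ι (a :: v)) = S.act (S.act x (ι a)) (ev ι v) := by
  rw [ev_cons, S.act_mul]

theorem act_ev_nil (S : Sys G V E) (ι : α → G) (x : V) : S.act x (ev ι ([] : List α)) = x := by
  rw [ev_nil, S.act_one]

/-- rotation -/
theorem TC.rot [Fintype E] {S : Sys G V E} {ι : α → G} {f : E → ℚ} {x : V} {u v : List α}
    (h : S.TC ι f x (u ++ v)) : S.TC ι f (S.act x (ev ι u)) (v ++ u) := by
  obtain ⟨h1, h2⟩ := h
  have h3 : S.act (S.act x (ev ι u)) (ev ι v) = x := by rw [← act_ev_append, h1]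
  refine ⟨by rw [act_ev_append, h3], ?_⟩
  rw [ev_append, S.cl_mul, h3, add_comm, ← S.cl_mul, ← ev_append, h2, List.length_append, List.length_append,
    Nat.add_comm]

/-- the edge is tight -/
def TE [Fintype E] (S : Sys G V E) (ι : α → G) (f : E → ℚ) (x : V) (a : α) : Prop :=
  ∃ r : List α, S.TC ι f x (a :: r)

/-- all edges of the path are tight -/
def AT [Fintype E] (S : Sys G V E) (ι : α → G) (f : E → ℚ) : V → List α → Prop
  | _, [] => True
  | x, a :: v => S.TE ι f x a ∧ AT S ι f (S.act x (ι a)) v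

theorem at_aux [Fintype E] (S : Sys G V E) (ι : α → G) (f : E → ℚ) (v : List α) : ∀ (x : V) (u : List α),
    S.TC ι f x (u ++ v) → S.AT ι f (S.act x (ev ι u)) v := by
  induction v with
  | nil => intro _ _ _; exact trivial
  | cons a t ih =>
    intro x u h
    refine ⟨⟨t ++ u, ?_⟩, ?_⟩
    · have h1 := TC.rot h
      rwa [List.cons_append] at h1
    · have h1 := ih x (u ++ [a]) (by rw [List.append_assoc]; exact h)
      rw [act_ev_append, act_ev_cons, act_ev_nil] at h1
      exact h1

theorem at_of_tc [Fintype E] (S : Sys G V E) (ι : α → G) (f : E → ℚ) (x : V) (u : List α)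
    (h : S.TC ι f x u) : S.AT ι f x u := by
  have h1 := at_aux S ι f u x [] h
  rwa [act_ev_nil] at h1

theorem at_return [Fintype E] (S : Sys G V E) (ι : α → G) (f : E → ℚ) (u : List α) : ∀ x : V,
    S.AT ι f x u → ∃ r : List α, S.TC ι f x (u ++ r) := by
  induction u with
  | nil =>
    intro x _
    refine ⟨[], ?_, ?_⟩
    · rw [List.nil_append, act_ev_nil]
    · rw [List.nil_append, ev_nil, S.cl_one]
      simp [pr]
  | cons a v ih =>
    intro x h
    obtain ⟨⟨s, hs1, hs2⟩, h2⟩ := h
    obtain ⟨r, hr1, hr2⟩ := ih _ h2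
    rw [act_ev_cons] at hs1
    refine ⟨r ++ s, ?_, ?_⟩
    · have e1 : (a :: v) ++ (r ++ s) = a :: ((v ++ r) ++ s) := by simp
      rw [e1, act_ev_cons, act_ev_append, hr1, hs1]
    · have e1 : (a :: v) ++ (r ++ s) = a :: ((v ++ r) ++ s) := by simp
      have e2 : S.cl x (ev ι (a :: ((v ++ r) ++ s))) =
          S.cl x (ev ι (a :: s)) + S.cl (S.act x (ι a)) (ev ι (v ++ r)) := by
        rw [ev_cons, S.cl_mul, ev_append, S.cl_mul, hr1, ev_cons, S.cl_mul]
        abel
      rw [e1, e2, pr_add, hs2, hr2]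
      simp only [List.length_cons, List.length_append]
      push_cast
      ring

theorem tc_of_at [Fintype E] (S : Sys G V E) (ι : α → G) (f : E → ℚ) (hN : S.Norm ι f) (x : V) (u : List α)
    (h : S.AT ι f x u) (hc : S.act x (ev ι u) = x) : S.TC ι f x u := by
  obtain ⟨r, hr1, hr2⟩ := at_return S ι f u x h
  have h1 : S.act x (ev ι r) = x := by
    rw [act_ev_append, hc] at hr1
    exact hr1
  rw [ev_append, S.cl_mul, hc, pr_add, List.length_append] at hr2
  push_cast at hr2
  have h2 := hN x u hc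
  have h3 := hN x r h1
  exact ⟨hc, by linarith⟩

/-- a good vertex has a tight edge -/
theorem Good.edge [Fintype E] {S : Sys G V E} {ι : α → G} {f : E → ℚ} {x : V} (h : S.Good ι f x) :
    ∃ a, S.TE ι f x a := by
  obtain ⟨w₁, w₂, h1, h2, e₁, e₂, hI⟩ := h
  cases w₁ with
  | nil =>
    exfalso
    apply hI
    rw [ev_nil, S.cl_one]
    simp
  | cons a r => exact ⟨a, r, h1⟩

private theorem ind_cases {E : Type*} (e c₁ c₂ : E → ℤ) (he : e ≠ 0) (h : Ind c₁ c₂) :
    Ind e (e + c₁) ∨ Ind e (e + c₂) := by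
  by_contra hcon
  rw [not_or] at hcon
  obtain ⟨n1, n2⟩ := hcon
  obtain ⟨i, hi⟩ : ∃ i, e i ≠ 0 := by
    by_contra h1
    push Not at h1
    exact he (funext h1)
  unfold Ind at n1 n2
  push Not at n1 n2
  have m1 : ∀ j, e i * c₁ j = e j * c₁ i := by
    intro j
    have := n1 i j
    simp only [Pi.add_apply] at this
    linarith
  have m2 : ∀ j, e i * c₂ j = e j * c₂ i := by
    intro j
    have := n2 i j
    simp only [Pi.add_apply] at this
    linarith
  obtain ⟨j, k, hjk⟩ := h
  apply hjk
  have h3 : (e i * e i) * (c₁ j * c₂ k - c₁ k * c₂ j) = 0 := by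
    calc (e i * e i) * (c₁ j * c₂ k - c₁ k * c₂ j) = (e i * c₁ j) * (e i * c₂ k) - (e i * c₁ k) * (e i * c₂ j) := by ring
      _ = (e j * c₁ i) * (e k * c₂ i) - (e k * c₁ i) * (e j * c₂ i) := by rw [m1 j, m2 k, m1 k, m2 j]
      _ = 0 := by ring
  rcases mul_eq_zero.1 h3 with h4 | h4
  · exact absurd (mul_self_eq_zero.1 h4) hi
  · exact h4

/-- the end of a tight edge at a good vertex is good -/
theorem Good.next [Fintype E] {S : Sys G V E} {ι : α → G} {f : E → ℚ} {x : V} (h : S.Good ι f x) {a : α}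
    (ha : S.TE ι f x a) : S.Good ι f (S.act x (ι a)) := by
  obtain ⟨w₁, w₂, h1, h2, hI⟩ := h
  obtain ⟨r, hr1, hr2⟩ := ha
  obtain ⟨y, hy⟩ : ∃ y, y = S.act x (ι a) := ⟨_, rfl⟩
  rw [← hy]
  have hyr : S.act y (ev ι r) = x := by rw [hy, ← act_ev_cons, hr1]
  obtain ⟨e, he⟩ : ∃ e, e = S.cl x (ev ι (a :: r)) := ⟨_, rfl⟩
  have he2 : e = S.cl x (ι a) + S.cl y (ev ι r) := by rw [he, ev_cons, S.cl_mul, hy]
  have hpe : pr f e = r.length + 1 := by
    rw [he, hr2]
    simp
  have he0 : e ≠ 0 := by
    intro h0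
    rw [h0] at hpe
    have h3 : pr f (0 : E → ℤ) = 0 := by simp [pr]
    rw [h3] at hpe
    have : (0 : ℚ) ≤ (r.length : ℚ) := Nat.cast_nonneg _
    linarith
  have key : ∀ w : List α, S.TC ι f x w → S.TC ι f y (r ++ (w ++ [a])) ∧
      S.cl y (ev ι (r ++ (w ++ [a]))) = e + S.cl x (ev ι w) := by
    intro w hw
    have e1 : S.cl y (ev ι (r ++ (w ++ [a]))) = e + S.cl x (ev ι w) := by
      rw [ev_append, S.cl_mul, hyr, ev_append, S.cl_mul, hw.1, he2, ev_cons, ev_nil, mul_one]
      abel
    refine ⟨⟨?_, ?_⟩, e1⟩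
    · rw [act_ev_append, hyr, act_ev_append, hw.1, act_ev_cons, act_ev_nil, hy]
    · rw [e1, pr_add, hpe, hw.2]
      simp only [List.length_cons, List.length_append, List.length_nil]
      push_cast
      ring
  have hnil : S.TC ι f x ([] : List α) := by
    refine ⟨act_ev_nil S ι x, ?_⟩
    rw [ev_nil, S.cl_one]
    simp [pr]
  obtain ⟨k0, k0'⟩ := key [] hnil
  obtain ⟨k1, k1'⟩ := key w₁ h1
  obtain ⟨k2, k2'⟩ := key w₂ h2
  have k0'' : S.cl y (ev ι (r ++ ([] ++ [a]))) = e := by
    rw [k0', ev_nil, S.cl_one, add_zero]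
  rcases ind_cases e _ _ he0 hI with h3 | h3
  · exact ⟨_, _, k0, k1, by rw [k0'', k1']; exact h3⟩
  · exact ⟨_, _, k0, k2, by rw [k0'', k2']; exact h3⟩

/-- the path of length `k` with the letters `g` -/
def GW (S : Sys G V E) (ι : α → G) (g : V → α) : V → ℕ → List α
  | _, 0 => []
  | x, k + 1 => g x :: GW S ι g (S.act x (ι (g x))) k

theorem gw_len (S : Sys G V E) (ι : α → G) (g : V → α) (k : ℕ) : ∀ x : V, (S.GW ι g x k).length = k := by
  induction k with
  | zero => intro x; rfl
  | succ k ih => intro x; rw [GW, List.length_cons, ih]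

theorem gw_add (S : Sys G V E) (ι : α → G) (g : V → α) (m l : ℕ) : ∀ x : V,
    S.GW ι g x (m + l) = S.GW ι g x m ++ S.GW ι g (S.act x (ev ι (S.GW ι g x m))) l := by
  induction m with
  | zero =>
    intro x
    rw [Nat.zero_add, GW, List.nil_append, act_ev_nil]
  | succ m ih =>
    intro x
    rw [show m + 1 + l = (m + l) + 1 by omega, GW, GW, ih, List.cons_append, act_ev_cons]

theorem gw_take (S : Sys G V E) (ι : α → G) (g : V → α) (x : V) {k K : ℕ} (h : k ≤ K) :
    (S.GW ι g x K).take k = S.GW ι g x k := by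
  obtain ⟨l, rfl⟩ := Nat.exists_eq_add_of_le h
  rw [gw_add]
  exact List.take_left' (gw_len S ι g k x)

end Sys

open Sys

theorem greedy {G V E α : Type*} [Group G] [Finite V] [Fintype E] [LinearOrder α] [Finite α]
    (S : Sys G V E) (ι : α → G) (f : E → ℚ) (hN : S.Norm ι f) (hG : ∃ x, S.Good ι f x) :
    ∃ (x0 : V) (p z : List α), S.Good ι f x0 ∧ z ≠ [] ∧
      S.TC ι f (S.act x0 (ev ι p)) z ∧ (∃ r : List α, S.TC ι f x0 (p ++ r)) ∧
      ∀ (x : V) (u : List α), S.Good ι f x → S.TC ι f x u → ∀ n : ℕ,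
        (p ++ rp n z).length ≤ u.length → p ++ rp n z ≤ u.take (p ++ rp n z).length := by
  classical
  obtain ⟨xg, hxg⟩ := hG
  obtain ⟨a0, ha0⟩ := Good.edge hxg
  -- the least tight letter
  have hg : ∀ x : V, ∃ a : α, S.Good ι f x → S.TE ι f x a ∧ ∀ b, S.TE ι f x b → a ≤ b := by
    intro x
    by_cases hx : S.Good ι f x
    · obtain ⟨a, ha, hmin⟩ := Set.exists_min_image {a | S.TE ι f x a} id (Set.toFinite _) (Good.edge hx)
      exact ⟨a, fun _ => ⟨ha, fun b hb => hmin b hb⟩⟩
    · exact ⟨a0, fun h => absurd h hx⟩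
  choose g hg using hg
  have hgood : ∀ x, S.Good ι f x → S.Good ι f (S.act x (ι (g x))) := fun x hx => Good.next hx (hg x hx).1
  have hAT : ∀ (k : ℕ) (x : V), S.Good ι f x → S.AT ι f x (S.GW ι g x k) := by
    intro k
    induction k with
    | zero => intro x _; exact trivial
    | succ k ih => intro x hx; exact ⟨(hg x hx).1, ih _ (hgood x hx)⟩
  have hgoodW : ∀ (k : ℕ) (x : V), S.Good ι f x → S.Good ι f (S.act x (ev ι (S.GW ι g x k))) := by
    intro k
    induction k with
    | zero => intro x hx; rw [GW, act_ev_nil]; exact hx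
    | succ k ih => intro x hx; rw [GW, act_ev_cons]; exact ih _ (hgood x hx)
  have hle : ∀ (k : ℕ) (x : V) (u : List α), S.Good ι f x → S.AT ι f x u → k ≤ u.length →
      S.GW ι g x k ≤ u.take k := by
    intro k
    induction k with
    | zero => intro x u _ _ _; exact nle _
    | succ k ih =>
      intro x u hx hu hk
      cases u with
      | nil => exact absurd hk (by simp)
      | cons a v =>
        rw [GW, List.take_succ_cons, cle]
        rcases lt_or_eq_of_le ((hg x hx).2 a hu.1) with h1 | h1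
        · exact Or.inl h1
        · refine Or.inr ⟨h1, ?_⟩
          rw [h1]
          refine ih _ v ?_ hu.2 (by simpa using hk)
          rw [← h1]
          exact hgood x hx
  -- the least vertex
  have hmin : ∀ k : ℕ, ∃ x : V, S.Good ι f x ∧ ∀ y, S.Good ι f y → S.GW ι g x k ≤ S.GW ι g y k := by
    intro k
    obtain ⟨x, hx, h1⟩ := Set.exists_min_image {x | S.Good ι f x} (fun x => S.GW ι g x k) (Set.toFinite _) ⟨xg, hxg⟩
    exact ⟨x, hx, h1⟩
  choose mv hmv1 hmv2 using hmin
  obtain ⟨x0, hx0⟩ := Finite.exists_infinite_fiber mv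
  have hx0i : (mv ⁻¹' {x0}).Infinite := Set.infinite_coe_iff.1 hx0
  have hx0g : S.Good ι f x0 := by
    obtain ⟨k, hk⟩ := hx0i.nonempty
    have h1 : mv k = x0 := hk
    rw [← h1]
    exact hmv1 k
  have hx0m : ∀ (k : ℕ) (y : V), S.Good ι f y → S.GW ι g x0 k ≤ S.GW ι g y k := by
    intro k y hy
    obtain ⟨K, hK, hkK⟩ := hx0i.exists_gt k
    have h1 : mv K = x0 := hK
    have h2 := hmv2 K y hy
    rw [h1] at h2
    have h3 := take_le k _ _ h2
    rwa [gw_take S ι g x0 hkK.le, gw_take S ι g y hkK.le] at h3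
  -- the orbit
  obtain ⟨i, j, hij, hxx⟩ := Finite.exists_ne_map_eq_of_infinite (fun k => S.act x0 (ev ι (S.GW ι g x0 k)))
  obtain ⟨m, l, hl, hml⟩ : ∃ m l : ℕ, 0 < l ∧
      S.act x0 (ev ι (S.GW ι g x0 (m + l))) = S.act x0 (ev ι (S.GW ι g x0 m)) := by
    rcases Nat.lt_or_gt_of_ne hij with h | h
    · exact ⟨i, j - i, by omega, by rw [show i + (j - i) = j by omega]; exact hxx.symm⟩
    · exact ⟨j, i - j, by omega, by rw [show j + (i - j) = i by omega]; exact hxx⟩
  obtain ⟨x1, hx1⟩ : ∃ x1, x1 = S.act x0 (ev ι (S.GW ι g x0 m)) := ⟨_, rfl⟩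
  have hx1g : S.Good ι f x1 := by rw [hx1]; exact hgoodW m x0 hx0g
  have hz : S.act x1 (ev ι (S.GW ι g x1 l)) = x1 := by
    rw [gw_add, act_ev_append, ← hx1] at hml
    exact hml
  have hrp : ∀ n : ℕ, S.GW ι g x1 (n * l) = rp n (S.GW ι g x1 l) := by
    intro n
    induction n with
    | zero => rw [Nat.zero_mul, GW, rp_zero]
    | succ n ih => rw [Nat.succ_mul, Nat.add_comm, gw_add, hz, ih, rp_succ]
  refine ⟨x0, S.GW ι g x0 m, S.GW ι g x1 l, hx0g, ?_, ?_, ?_, ?_⟩
  · intro h
    have h1 := gw_len S ι g l x1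
    rw [h, List.length_nil] at h1
    omega
  · rw [← hx1]
    exact tc_of_at S ι f hN x1 _ (hAT l x1 hx1g) hz
  · exact at_return S ι f _ x0 (hAT m x0 hx0g)
  · intro x u hx hu n hn
    have h1 : S.GW ι g x0 m ++ rp n (S.GW ι g x1 l) = S.GW ι g x0 (m + n * l) := by
      rw [gw_add, ← hx1, hrp]
    rw [h1] at hn ⊢
    rw [gw_len] at hn ⊢
    exact (hx0m _ x hx).trans (hle _ x u hx (at_of_tc S ι f x u hu) hn)

end Pool.Agent.H73.D3
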