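import Pool.Agent.H73.D3.Basic

/-!
# Module Lp [H73 D3]: a vertex of a polyhedron, elementary form

`J` finite, `c j` vectors, `b j > 0`. Symmetric: if `c j` pairs negatively with `u` for some `j` then
some `c j'` pairs positively with `u`. Conclusion: there is a feasible `f` such that every `u`
orthogonal to all tight `c j` is orthogonal to all `c j`.

PROOF. Among the feasible `f` (`f = 0` is feasible) take one with the largest number of tight `j`
(finite). If `u` kills the tight ones but not all, take `j` with `0 < pr u (c j)` (by `hsym`) and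
`t = min (b j - pr f (c j)) / pr u (c j)` over these `j`; `0 < t`. `f + t u` is feasible, the old
tight ones stay tight and a new one (the minimiser) is tight.
-/

set_option autoImplicit false

namespace Pool.Agent.H73.D3

private theorem pr_add_smul {E : Type*} [Fintype E] (f u : E → ℚ) (t : ℚ) (c : E → ℤ) :
    pr (fun e => f e + t * u e) c = pr f c + t * pr u c := by
  simp only [pr, add_mul, Finset.sum_add_distrib, Finset.mul_sum]
  refine congrArg (fun x => (∑ e, f e * (c e : ℚ)) + x) (Finset.sum_congr rfl fun e _ => ?_)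
  ring

theorem lp_vertex {J E : Type*} [Finite J] [Fintype E] (c : J → (E → ℤ)) (b : J → ℚ)
    (hb : ∀ j, 0 < b j)
    (hsym : ∀ u : E → ℚ, (∃ j, pr u (c j) ≠ 0) → ∃ j, 0 < pr u (c j)) :
    ∃ f : E → ℚ, (∀ j, pr f (c j) ≤ b j) ∧
      ∀ u : E → ℚ, (∀ j, pr f (c j) = b j → pr u (c j) = 0) → ∀ j, pr u (c j) = 0 := by
  by_contra hcon
  push Not at hcon
  have key : ∀ n : ℕ, ∃ f : E → ℚ, (∀ j, pr f (c j) ≤ b j) ∧ n ≤ {j | pr f (c j) = b j}.ncard := by
    intro n
    induction n with
    | zero =>
      refine ⟨fun _ => 0, fun j => ?_, Nat.zero_le _⟩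
      have h1 : pr (fun _ : E => (0 : ℚ)) (c j) = 0 := by simp [pr]
      rw [h1]
      exact (hb j).le
    | succ n ih =>
      obtain ⟨f, hf, hn⟩ := ih
      obtain ⟨u, hu, j0, hj0⟩ := hcon f hf
      obtain ⟨j2, hj2⟩ := hsym u ⟨j0, hj0⟩
      obtain ⟨j1, hj1, hmin⟩ := Set.exists_min_image {j : J | 0 < pr u (c j)}
        (fun j => (b j - pr f (c j)) / pr u (c j)) (Set.toFinite _) ⟨j2, hj2⟩
      have hj1' : 0 < pr u (c j1) := hj1
      obtain ⟨t, ht⟩ : ∃ t : ℚ, t = (b j1 - pr f (c j1)) / pr u (c j1) := ⟨_, rfl⟩
      have ht0 : 0 ≤ t := by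
        rw [ht]
        exact div_nonneg (sub_nonneg.2 (hf j1)) hj1'.le
      refine ⟨fun e => f e + t * u e, fun j => ?_, ?_⟩
      · rw [pr_add_smul]
        rcases le_or_gt (pr u (c j)) 0 with h | h
        · have h2 : t * pr u (c j) ≤ 0 := mul_nonpos_of_nonneg_of_nonpos ht0 h
          linarith [hf j]
        · have h2 := hmin j h
          rw [← ht] at h2
          have h3 : t * pr u (c j) ≤ b j - pr f (c j) := (le_div_iff₀ h).1 h2
          linarith
      · have hnot : j1 ∉ {j | pr f (c j) = b j} := by
          intro h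
          exact hj1'.ne' (hu j1 h)
        have hsub : insert j1 {j | pr f (c j) = b j} ⊆
            {j | pr (fun e => f e + t * u e) (c j) = b j} := by
          intro j hj
          rw [Set.mem_setOf_eq, pr_add_smul]
          rcases hj with rfl | hj
          · rw [ht, div_mul_cancel₀ _ hj1'.ne']
            ring
          · rw [hu j hj, mul_zero, add_zero]
            exact hj
        have h1 := Set.ncard_le_ncard hsub (Set.toFinite _)
        rw [Set.ncard_insert_of_notMem hnot (Set.toFinite _)] at h1
        omega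
  obtain ⟨f, -, hf⟩ := key (Nat.card J + 1)
  have h1 : {j | pr f (c j) = b j}.ncard ≤ Nat.card J := by
    rw [← Set.ncard_univ]
    exact Set.ncard_le_ncard (Set.subset_univ _) (Set.toFinite _)
  omega

end Pool.Agent.H73.D3
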