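import Pool.Agent.H73.D3.Basic

/-!
# Module Mat [H73 D3]: traces of words in SL_2 over a ring, and the first order shape
-/

set_option autoImplicit false

namespace Pool.Agent.H73.D3

open Matrix

section trace

variable {R : Type*} [CommRing R]

/-- trace of M^n W M^b W -/
def tf (M W : Matrix (Fin 2) (Fin 2) R) (n b : ℕ) : R := Matrix.trace (M ^ n * W * (M ^ b * W))

/-- Chebyshev values -/
def cheb (t : R) : ℕ → R
  | 0 => 1
  | 1 => t
  | (k + 2) => t * cheb t (k + 1) - cheb t k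

theorem ch (M : Matrix (Fin 2) (Fin 2) R) (hM : M.det = 1) (n : ℕ) :
    M ^ (n + 2) = M.trace • M ^ (n + 1) - M ^ n := by
  have h2 : M * M = M.trace • M - 1 := by
    rw [Matrix.det_fin_two] at hM
    ext i j
    fin_cases i <;> fin_cases j <;>
      simp [Matrix.mul_apply, Fin.sum_univ_two, Matrix.trace_fin_two] <;>
      first
        | ring1
        | linear_combination (-1 : R) * hM
  calc M ^ (n + 2) = M ^ n * (M * M) := by rw [pow_add, pow_two]
    _ = M ^ n * (M.trace • M - 1) := by rw [h2]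
    _ = M.trace • M ^ (n + 1) - M ^ n := by
      rw [mul_sub, mul_one, Matrix.mul_smul, pow_succ]

theorem tf_symm (M W : Matrix (Fin 2) (Fin 2) R) (n b : ℕ) : tf M W n b = tf M W b n := by
  unfold tf
  rw [Matrix.trace_mul_comm]

theorem tf_rec (M W : Matrix (Fin 2) (Fin 2) R) (hM : M.det = 1) (n b : ℕ) :
    tf M W (n + 2) b = M.trace * tf M W (n + 1) b - tf M W n b := by
  unfold tf
  rw [ch M hM n, sub_mul, sub_mul, Matrix.trace_sub, Matrix.smul_mul, Matrix.smul_mul,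
    Matrix.trace_smul, smul_eq_mul]

theorem tf_diag (M W : Matrix (Fin 2) (Fin 2) R) (hM : M.det = 1) (b : ℕ) :
    tf M W (b + 1) (b + 1) - tf M W (b + 2) b = tf M W 1 1 - tf M W 2 0 := by
  induction b with
  | zero => rfl
  | succ b ih =>
    have h1 : tf M W (b + 1 + 1) (b + 1 + 1)
        = M.trace * tf M W (b + 1) (b + 2) - tf M W b (b + 2) := tf_rec M W hM b (b + 2)
    have h2 : tf M W (b + 1 + 2) (b + 1)
        = M.trace * tf M W (b + 2) (b + 1) - tf M W (b + 1) (b + 1) :=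
      tf_rec M W hM (b + 1) (b + 1)
    rw [h1, h2, tf_symm M W (b + 2) (b + 1), tf_symm M W b (b + 2)]
    linear_combination ih

theorem tf_gap (M W : Matrix (Fin 2) (Fin 2) R) (hM : M.det = 1) (b : ℕ) :
    ∀ k : ℕ, tf M W (b + 1 + k) (b + 1) - tf M W (b + 2 + k) b
      = cheb M.trace k * (tf M W 1 1 - tf M W 2 0) ∧
      tf M W (b + 1 + (k + 1)) (b + 1) - tf M W (b + 2 + (k + 1)) b
      = cheb M.trace (k + 1) * (tf M W 1 1 - tf M W 2 0) := by
  intro k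
  induction k with
  | zero =>
    refine ⟨?_, ?_⟩
    · have h := tf_diag M W hM b
      simp only [cheb, one_mul, add_zero]
      exact h
    · have h := tf_diag M W hM b
      have h1 : tf M W (b + 1 + (0 + 1)) (b + 1)
        = M.trace * tf M W (b + 1) (b + 1) - tf M W b (b + 1) := tf_rec M W hM b (b + 1)
      have h2 : tf M W (b + 2 + (0 + 1)) b
        = M.trace * tf M W (b + 2) b - tf M W (b + 1) b := tf_rec M W hM (b + 1) b
      rw [h1, h2, tf_symm M W b (b + 1)]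
      simp only [cheb]
      linear_combination M.trace * h
  | succ k ih =>
    refine ⟨ih.2, ?_⟩
    have h1 : tf M W (b + 1 + (k + 1 + 1)) (b + 1)
        = M.trace * tf M W (b + 1 + (k + 1)) (b + 1) - tf M W (b + 1 + k) (b + 1) :=
      tf_rec M W hM (b + 1 + k) (b + 1)
    have h2 : tf M W (b + 2 + (k + 1 + 1)) b
        = M.trace * tf M W (b + 2 + (k + 1)) b - tf M W (b + 2 + k) b :=
      tf_rec M W hM (b + 2 + k) b
    have h3 : cheb M.trace (k + 1 + 1) = M.trace * cheb M.trace (k + 1) - cheb M.trace k := rfl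
    rw [h1, h2, h3]
    linear_combination M.trace * ih.2 - ih.1

theorem tf_comm (M W : Matrix (Fin 2) (Fin 2) R) :
    tf M W 1 1 - tf M W 2 0 = (M 0 1 * W 1 0 - W 0 1 * M 1 0) ^ 2
      + ((M 0 0 - M 1 1) * W 0 1 + M 0 1 * (W 1 1 - W 0 0))
        * (M 1 0 * (W 0 0 - W 1 1) + (M 1 1 - M 0 0) * W 1 0) := by
  unfold tf
  simp only [pow_one, pow_zero, pow_two, Matrix.one_mul, Matrix.trace_fin_two, Matrix.mul_apply,
    Fin.sum_univ_two]
  ring

end trace

section rep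

open Polynomial

/-- first order shape -/
def Shape (g : Matrix (Fin 2) (Fin 2) ℤ[X]) (a b : ℤ) : Prop :=
  (∃ p, g 0 0 = 1 + X ^ 2 * p) ∧ (∃ p, g 1 1 = 1 + X ^ 2 * p) ∧
    (∃ p, g 0 1 = X * (C a + X * p)) ∧ (∃ p, g 1 0 = X * (C b + X * p))

theorem shape_mul {g h : Matrix (Fin 2) (Fin 2) ℤ[X]} {a b c d : ℤ} (hg : Shape g a b)
    (hh : Shape h c d) : Shape (g * h) (a + c) (b + d) := by
  obtain ⟨⟨p1, e1⟩, ⟨p2, e2⟩, ⟨p3, e3⟩, ⟨p4, e4⟩⟩ := hg
  obtain ⟨⟨q1, f1⟩, ⟨q2, f2⟩, ⟨q3, f3⟩, ⟨q4, f4⟩⟩ := hh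
  refine ⟨⟨p1 + q1 + X ^ 2 * p1 * q1 + (C a + X * p3) * (C d + X * q4), ?_⟩,
    ⟨p2 + q2 + X ^ 2 * p2 * q2 + (C b + X * p4) * (C c + X * q3), ?_⟩,
    ⟨q3 + p3 + X * p1 * (C c + X * q3) + X * q2 * (C a + X * p3), ?_⟩,
    ⟨q4 + p4 + X * q1 * (C b + X * p4) + X * p2 * (C d + X * q4), ?_⟩⟩ <;>
  · simp only [Matrix.mul_apply, Fin.sum_univ_two, e1, e2, e3, e4, f1, f2, f3, f4, C_add]
    ring

theorem shape_one : Shape 1 0 0 := by
  refine ⟨⟨0, by simp⟩, ⟨0, by simp⟩, ⟨0, by simp⟩, ⟨0, by simp⟩⟩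

/-- upper unipotent -/
noncomputable def uA (s : ℤ) : Matrix.SpecialLinearGroup (Fin 2) ℤ[X] :=
  ⟨!![1, C s * X; 0, 1], by simp [Matrix.det_fin_two]⟩

/-- lower unipotent -/
noncomputable def uB (s : ℤ) : Matrix.SpecialLinearGroup (Fin 2) ℤ[X] :=
  ⟨!![1, 0; C s * X, 1], by simp [Matrix.det_fin_two]⟩

theorem uA_inv (s : ℤ) : (uA s)⁻¹ = uA (-s) := by
  rw [inv_eq_iff_mul_eq_one]
  apply Subtype.ext
  rw [Matrix.SpecialLinearGroup.coe_mul, Matrix.SpecialLinearGroup.coe_one]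
  apply Matrix.ext
  intro i j
  fin_cases i <;> fin_cases j <;> simp [uA, Matrix.mul_apply, Fin.sum_univ_two]

theorem uB_inv (s : ℤ) : (uB s)⁻¹ = uB (-s) := by
  rw [inv_eq_iff_mul_eq_one]
  apply Subtype.ext
  rw [Matrix.SpecialLinearGroup.coe_mul, Matrix.SpecialLinearGroup.coe_one]
  apply Matrix.ext
  intro i j
  fin_cases i <;> fin_cases j <;> simp [uB, Matrix.mul_apply, Fin.sum_univ_two]

theorem shape_A (s : ℤ) : Shape (uA s).1 s 0 := by
  refine ⟨⟨0, by simp [uA]⟩, ⟨0, by simp [uA]⟩, ⟨0, by simp [uA, mul_comm]⟩, ⟨0, by simp [uA]⟩⟩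

theorem shape_B (s : ℤ) : Shape (uB s).1 0 s := by
  refine ⟨⟨0, by simp [uB]⟩, ⟨0, by simp [uB]⟩, ⟨0, by simp [uB]⟩, ⟨0, by simp [uB, mul_comm]⟩⟩

/-- the representation of the free group -/
noncomputable def rep : FreeGroup (Fin 2) →* Matrix.SpecialLinearGroup (Fin 2) ℤ[X] :=
  FreeGroup.lift (fun i => if i = 0 then uA 1 else uB 1)

/-- exponent sums -/
def ex (i : Fin 2) : FreeGroup (Fin 2) →* Multiplicative ℤ :=
  FreeGroup.lift (fun j => Multiplicative.ofAdd (if j = i then 1 else 0))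

theorem shape_rep (w : FreeGroup (Fin 2)) :
    Shape (rep w).1 (ex 0 w).toAdd (ex 1 w).toAdd := by
  induction w using FreeGroup.induction_on with
  | C1 => simpa using shape_one
  | of i =>
    fin_cases i
    · simpa [rep, ex] using shape_A 1
    · simpa [rep, ex] using shape_B 1
  | inv_of i _ =>
    fin_cases i
    · have h := shape_A (-1)
      rw [← uA_inv 1] at h
      simpa [rep, ex] using h
    · have h := shape_B (-1)
      rw [← uB_inv 1] at h
      simpa [rep, ex] using h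
  | mul u v hu hv =>
    have h := shape_mul hu hv
    simpa using h

theorem cheb_eval {t : ℤ[X]} (ht : t.eval 0 = 2) :
    ∀ k : ℕ, (cheb t k).eval 0 = (k : ℤ) + 1 ∧ (cheb t (k + 1)).eval 0 = (k : ℤ) + 2 := by
  intro k
  induction k with
  | zero => simp [cheb, ht]
  | succ k ih =>
    refine ⟨?_, ?_⟩
    · rw [ih.2]; push_cast; ring
    · have h3 : cheb t (k + 1 + 1) = t * cheb t (k + 1) - cheb t k := rfl
      rw [h3, eval_sub, eval_mul, ht, ih.1, ih.2]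
      push_cast
      ring

theorem kap {M W : Matrix (Fin 2) (Fin 2) ℤ[X]} {a b c d : ℤ} (hM : Shape M a b)
    (hW : Shape W c d) :
    ∃ K : ℤ[X], tf M W 1 1 - tf M W 2 0 = X ^ 4 * K ∧ K.eval 0 = (a * d - b * c) ^ 2 := by
  obtain ⟨⟨p1, e1⟩, ⟨p2, e2⟩, ⟨p3, e3⟩, ⟨p4, e4⟩⟩ := hM
  obtain ⟨⟨q1, f1⟩, ⟨q2, f2⟩, ⟨q3, f3⟩, ⟨q4, f4⟩⟩ := hW
  refine ⟨((C a + X * p3) * (C d + X * q4) - (C c + X * q3) * (C b + X * p4)) ^ 2
        + X ^ 2 * (((p1 - p2) * (C c + X * q3) + (C a + X * p3) * (q2 - q1))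
          * ((C b + X * p4) * (q1 - q2) + (p2 - p1) * (C d + X * q4))), ?_, ?_⟩
  · rw [tf_comm, e1, e2, e3, e4, f1, f2, f3, f4]
    ring
  · simp
    ring

theorem trace_eval {M : Matrix (Fin 2) (Fin 2) ℤ[X]} {a b : ℤ} (hM : Shape M a b) :
    (Matrix.trace M).eval 0 = 2 := by
  obtain ⟨⟨p1, e1⟩, ⟨p2, e2⟩, _⟩ := hM
  rw [Matrix.trace_fin_two, e1, e2]
  simp

end rep

end Pool.Agent.H73.D3
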