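import Pool.Agent.H73.D3.Basic

/-!
# Module Rk [H73 D3]: the closed classes of a finite cover of the rose are many

`B` is the cocycle of traversed edges. PROOF. Suppose every `u` orthogonal to `T` is orthogonal to all
`B p w`, `q w = 1`. The space `T^⊥` has dimension `≥ 2 |P| - |T| ≥ |P|`
(kernel of `u ↦ (⟨u, v⟩)_{v ∈ T}` on `P × Fin 2 → ℚ`). Let `u` be in it. Put
`h p = pr u (B 1 w)` for any `w` with `q w = p` (well defined: `q w = q w'` gives
`B 1 w' = B 1 w + B (q w) (w⁻¹ w')` and `q (w⁻¹ w') = 1`). Then
`u (p, i) = h (p * q (of i)) - h p` (take `w` with `q w = p`, look at `w * of i`, and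
`pr u (B p (of i)) = u (p, i)`). So `T^⊥` lies in the range of the linear map
`δ : (P → ℚ) → (P × Fin 2 → ℚ)`, `δ h (p, i) = h (p * q (of i)) - h p`, whose kernel contains
the constants; so the range has dimension `≤ |P| - 1`: contradiction.
-/

set_option autoImplicit false

namespace Pool.Agent.H73.D3

/-- the coboundary -/
private def dlt {P : Type*} [Group P] (q : FreeGroup (Fin 2) →* P) :
    (P → ℚ) →ₗ[ℚ] (P × Fin 2 → ℚ) where
  toFun h := fun e => h (e.1 * q (FreeGroup.of e.2)) - h e.1
  map_add' a b := by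
    funext e
    simp only [Pi.add_apply]
    ring
  map_smul' c a := by
    funext e
    simp only [Pi.smul_apply, smul_eq_mul, RingHom.id_apply]
    ring

/-- pairing with the elements of `T` -/
private def pai {E : Type*} [Fintype E] (T : Finset (E → ℚ)) : (E → ℚ) →ₗ[ℚ] (T → ℚ) where
  toFun u := fun v => ∑ e, u e * v.1 e
  map_add' a b := by
    funext v
    simp only [Pi.add_apply, add_mul, Finset.sum_add_distrib]
  map_smul' c a := by
    funext v
    simp only [Pi.smul_apply, smul_eq_mul, RingHom.id_apply, Finset.mul_sum, mul_assoc]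

theorem rank_cover {P : Type*} [Group P] [Fintype P] [DecidableEq P]
    (q : FreeGroup (Fin 2) →* P)
    (hq : Function.Surjective q) (B : P → FreeGroup (Fin 2) → (P × Fin 2 → ℤ))
    (hB : ∀ p w w', B p (w * w') = B p w + B (p * q w) w')
    (hBof : ∀ p i, B p (FreeGroup.of i) = Pi.single (p, i) 1)
    (T : Finset (P × Fin 2 → ℚ)) (hT : T.card ≤ Fintype.card P) :
    ∃ u : P × Fin 2 → ℚ, (∀ v ∈ T, ∑ e, u e * v e = 0) ∧
      ∃ (p : P) (w : FreeGroup (Fin 2)), q w = 1 ∧ pr u (B p w) ≠ 0 := by
  by_contra hcon
  push Not at hcon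
  -- the orthogonal space lies in the range of the coboundary
  have hle : LinearMap.ker (pai T) ≤ LinearMap.range (dlt q) := by
    intro u hu
    have hu' : ∀ v ∈ T, ∑ e, u e * v e = 0 := by
      intro v hv
      have h1 : pai T u = 0 := hu
      exact congrFun h1 ⟨v, hv⟩
    have hc := hcon u hu'
    have hwd : ∀ w w' : FreeGroup (Fin 2), q w = q w' → pr u (B 1 w') = pr u (B 1 w) := by
      intro w w' h
      have h2 : w' = w * (w⁻¹ * w') := by group
      rw [h2, hB, pr_add, hc _ (w⁻¹ * w') (by rw [map_mul, map_inv, h, inv_mul_cancel]), add_zero]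
    refine ⟨fun p => pr u (B 1 (Classical.choose (hq p))), ?_⟩
    funext e
    obtain ⟨p, i⟩ := e
    have hp := Classical.choose_spec (hq p)
    have hpi := Classical.choose_spec (hq (p * q (FreeGroup.of i)))
    set w := Classical.choose (hq p) with hw
    set w' := Classical.choose (hq (p * q (FreeGroup.of i))) with hw'
    change pr u (B 1 w') - pr u (B 1 w) = u (p, i)
    have h3 : pr u (B 1 w') = pr u (B 1 (w * FreeGroup.of i)) :=
      hwd _ _ (by rw [map_mul, hp, hpi])
    rw [h3, hB, pr_add, hp, one_mul, hBof]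
    have h4 : pr u (Pi.single (p, i) (1 : ℤ)) = u (p, i) := by
      unfold pr
      rw [Finset.sum_eq_single (p, i)]
      · simp
      · intro b _ hb
        rw [Pi.single_eq_of_ne hb]
        simp
      · intro h
        exact absurd (Finset.mem_univ _) h
    rw [h4]
    ring
  -- dimensions
  have h1 := LinearMap.finrank_range_add_finrank_ker (pai T)
  have h2 := LinearMap.finrank_range_add_finrank_ker (dlt q)
  have h3 : Module.finrank ℚ (LinearMap.range (pai T)) ≤ T.card := by
    refine (Submodule.finrank_le _).trans ?_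
    simp
  have h4 : Module.finrank ℚ (LinearMap.ker (pai T)) ≤
      Module.finrank ℚ (LinearMap.range (dlt q)) := Submodule.finrank_mono hle
  have h5 : 1 ≤ Module.finrank ℚ (LinearMap.ker (dlt q)) := by
    rw [Nat.one_le_iff_ne_zero, ← Nat.pos_iff_ne_zero, Module.finrank_pos_iff]
    refine ⟨⟨⟨fun _ => 1, ?_⟩, 0, ?_⟩⟩
    · rw [LinearMap.mem_ker]
      funext e
      simp [dlt]
    · intro h
      have h6 := congrArg Subtype.val h
      have h7 := congrFun h6 (1 : P)
      simp at h7
  have h8 : Module.finrank ℚ (P × Fin 2 → ℚ) = 2 * Fintype.card P := by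
    rw [Module.finrank_fintype_fun_eq_card, Fintype.card_prod, Fintype.card_fin, mul_comm]
  have h9 : Module.finrank ℚ (P → ℚ) = Fintype.card P := by
    rw [Module.finrank_fintype_fun_eq_card]
  have h10 : 0 < Fintype.card P := Fintype.card_pos
  omega

end Pool.Agent.H73.D3
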