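import Pool.Agent.H73.D3.Mat

/-!
# Module Tr [H73 D3]: the trace contradiction
-/

set_option autoImplicit false

namespace Pool.Agent.H73.D3

open Matrix Polynomial

theorem shape_inv {g : Matrix.SpecialLinearGroup (Fin 2) ℤ[X]} {a b : ℤ} (h : Shape g.1 a b) :
    Shape (g⁻¹).1 (-a) (-b) := by
  obtain ⟨⟨p1, e1⟩, ⟨p2, e2⟩, ⟨p3, e3⟩, ⟨p4, e4⟩⟩ := h
  have hinv : (g⁻¹).1 = !![g.1 1 1, -g.1 0 1; -g.1 1 0, g.1 0 0] := by
    rw [Matrix.SpecialLinearGroup.coe_inv, Matrix.adjugate_fin_two]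
  rw [hinv]
  refine ⟨⟨p2, by simpa using e2⟩, ⟨p1, by simpa using e1⟩, ⟨-p3, ?_⟩, ⟨-p4, ?_⟩⟩
  · simp only [Matrix.of_apply, Matrix.cons_val', Matrix.cons_val_zero, Matrix.cons_val_one,
      e3, C_neg]
    ring
  · simp only [Matrix.of_apply, Matrix.cons_val', Matrix.cons_val_zero, Matrix.cons_val_one,
      e4, C_neg]
    ring

theorem shape_coc {P : Type*} [Group P] [DecidableEq P] (q : FreeGroup (Fin 2) →* P)
    (e₁ e₂ : P × Fin 2) (hne : e₁ ≠ e₂)
    (D : P → FreeGroup (Fin 2) → Matrix.SpecialLinearGroup (Fin 2) ℤ[X])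
    (hD : ∀ p w w', D p (w * w') = D p w * D (p * q w) w')
    (hDof : ∀ p i, D p (FreeGroup.of i)
      = (if (p, i) = e₁ then uA 1 else 1) * (if (p, i) = e₂ then uB 1 else 1))
    (B : P → FreeGroup (Fin 2) → (P × Fin 2 → ℤ))
    (hB : ∀ p w w', B p (w * w') = B p w + B (p * q w) w')
    (hBof : ∀ p i, B p (FreeGroup.of i) = Pi.single (p, i) 1) (w : FreeGroup (Fin 2)) :
    ∀ p, Shape (D p w).1 (B p w e₁) (B p w e₂) := by
  have hD1 : ∀ p, D p 1 = 1 := by
    intro p
    have h := hD p 1 1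
    rw [mul_one, map_one, mul_one] at h
    simpa using h
  have hB1 : ∀ p, B p 1 = 0 := by
    intro p
    have h := hB p 1 1
    rw [mul_one, map_one, mul_one] at h
    simpa using h
  have hof : ∀ i p, Shape (D p (FreeGroup.of i)).1 (B p (FreeGroup.of i) e₁)
      (B p (FreeGroup.of i) e₂) := by
    intro i p
    rw [hDof, hBof]
    by_cases h1 : (p, i) = e₁
    · have h2 : ¬ (p, i) = e₂ := fun h => hne (h1.symm.trans h)
      rw [if_pos h1, if_neg h2, mul_one, ← h1]
      have h3 : Pi.single (M := fun _ => ℤ) (p, i) 1 e₂ = 0 := by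
        rw [Pi.single_apply, if_neg (fun h => h2 h.symm)]
      rw [h3, Pi.single_eq_same]
      exact shape_A 1
    · have h4 : Pi.single (M := fun _ => ℤ) (p, i) 1 e₁ = 0 := by
        rw [Pi.single_apply, if_neg (fun h => h1 h.symm)]
      by_cases h2 : (p, i) = e₂
      · rw [if_neg h1, if_pos h2, one_mul, h4, ← h2, Pi.single_eq_same]
        exact shape_B 1
      · have h3 : Pi.single (M := fun _ => ℤ) (p, i) 1 e₂ = 0 := by
          rw [Pi.single_apply, if_neg (fun h => h2 h.symm)]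
        rw [if_neg h1, if_neg h2, one_mul, h4, h3]
        exact shape_one
  induction w using FreeGroup.induction_on with
  | C1 =>
    intro p
    rw [hD1, hB1]
    exact shape_one
  | of i => exact hof i
  | inv_of i _ =>
    intro p
    have h1 := hD p (FreeGroup.of i)⁻¹ (FreeGroup.of i)
    rw [inv_mul_cancel, hD1] at h1
    have h2 := hB p (FreeGroup.of i)⁻¹ (FreeGroup.of i)
    rw [inv_mul_cancel, hB1] at h2
    have h3 := shape_inv (hof i (p * q (FreeGroup.of i)⁻¹))
    rw [← eq_inv_of_mul_eq_one_left h1.symm] at h3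
    have h4 : B p (FreeGroup.of i)⁻¹ = - B (p * q (FreeGroup.of i)⁻¹) (FreeGroup.of i) :=
      eq_neg_of_add_eq_zero_left h2.symm
    rw [h4]
    exact h3
  | mul u v hu hv =>
    intro p
    rw [hD, hB]
    exact shape_mul (hu p) (hv (p * q u))

theorem trace_large {G V E : Type*} [Group G] [Fintype V] (S : Sys G V E) (e₁ e₂ : E)
    (D : V → G → Matrix.SpecialLinearGroup (Fin 2) ℤ[X])
    (hD : ∀ x g h, D x (g * h) = D x g * D (S.act x g) h)
    (hS : ∀ x g, Shape (D x g).1 (S.cl x g e₁) (S.cl x g e₂)) (U W : G)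
    (hU : ∀ x, S.act x U = x) (hW : ∀ x, S.act x W = x) (n b : ℕ) (hb : b < n)
    (hc : IsConj (U ^ n * W * (U ^ (b + 1) * W)) (U ^ (n + 1) * W * (U ^ b * W))) :
    ∀ x, S.cl x U e₁ * S.cl x W e₂ - S.cl x U e₂ * S.cl x W e₁ = 0 := by
  have hD1 : ∀ x, D x 1 = 1 := by
    intro x
    have h := hD x 1 1
    rw [mul_one, S.act_one] at h
    simpa using h
  have hact : ∀ (k : ℕ) x, S.act x (U ^ k) = x := by
    intro k
    induction k with
    | zero => intro x; rw [pow_zero, S.act_one]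
    | succ k ih => intro x; rw [pow_succ, S.act_mul, ih, hU]
  have hDpow : ∀ (k : ℕ) x, D x (U ^ k) = D x U ^ k := by
    intro k
    induction k with
    | zero => intro x; rw [pow_zero, pow_zero, hD1]
    | succ k ih => intro x; rw [pow_succ, hD, ih, hact, pow_succ]
  have hval : ∀ (m k : ℕ) x, D x (U ^ m * W * (U ^ k * W))
      = D x U ^ m * D x W * (D x U ^ k * D x W) := by
    intro m k x
    rw [hD, hD, hD, hDpow, hact, S.act_mul, hact, hW, hDpow, hact]
  have htf : ∀ (m k : ℕ) x, Matrix.trace (D x (U ^ m * W * (U ^ k * W))).1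
      = tf (D x U).1 (D x W).1 m k := by
    intro m k x
    rw [hval, tf]
    rfl
  -- conjugation
  obtain ⟨c, hc⟩ := isConj_iff.1 hc
  have htr : ∀ x, Matrix.trace (D x (U ^ (n + 1) * W * (U ^ b * W))).1
      = Matrix.trace (D (S.act x c) (U ^ n * W * (U ^ (b + 1) * W))).1 := by
    intro x
    set g := U ^ n * W * (U ^ (b + 1) * W) with hg
    have hgact : ∀ y, S.act y g = y := by
      intro y
      rw [hg, S.act_mul, S.act_mul, hact, hW, S.act_mul, hact, hW]
    have h1 : D x (c * g * c⁻¹) = D x c * D (S.act x c) g * (D x c)⁻¹ := by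
      rw [hD, hD, S.act_mul, hgact]
      congr 1
      have h2 := hD x c c⁻¹
      rw [mul_inv_cancel, hD1] at h2
      exact eq_inv_of_mul_eq_one_right h2.symm
    rw [← hc, h1]
    have h3 : (D x c * D (S.act x c) g * (D x c)⁻¹).1
        = (D x c).1 * (D (S.act x c) g).1 * ((D x c)⁻¹).1 := rfl
    have h4 : ((D x c)⁻¹).1 * (D x c).1 = 1 := congrArg Subtype.val (inv_mul_cancel (D x c))
    rw [h3, Matrix.trace_mul_comm, ← Matrix.mul_assoc, h4, Matrix.one_mul]
  have hbij : Function.Bijective (fun x => S.act x c) := by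
    refine ⟨fun x y hxy => ?_, fun x => ⟨S.act x c⁻¹, ?_⟩⟩
    · have h5 := congrArg (fun z => S.act z c⁻¹) hxy
      simpa only [← S.act_mul, mul_inv_cancel, S.act_one] using h5
    · change S.act (S.act x c⁻¹) c = x
      rw [← S.act_mul, inv_mul_cancel, S.act_one]
  have hsum : ∑ x, Matrix.trace (D x (U ^ (n + 1) * W * (U ^ b * W))).1
      = ∑ x, Matrix.trace (D x (U ^ n * W * (U ^ (b + 1) * W))).1 := by
    simp_rw [htr]
    exact Function.Bijective.sum_comp hbij
      (fun x => Matrix.trace (D x (U ^ n * W * (U ^ (b + 1) * W))).1)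
  obtain ⟨k, rfl⟩ : ∃ k, n = b + 1 + k := ⟨n - (b + 1), by omega⟩
  have hkap : ∀ x, ∃ K : ℤ[X], tf (D x U).1 (D x W).1 1 1 - tf (D x U).1 (D x W).1 2 0
      = X ^ 4 * K ∧
      K.eval 0 = (S.cl x U e₁ * S.cl x W e₂ - S.cl x U e₂ * S.cl x W e₁) ^ 2 :=
    fun x => kap (hS x U) (hS x W)
  choose K hK1 hK2 using hkap
  have hdiff : ∀ x, Matrix.trace (D x (U ^ (b + 1 + k) * W * (U ^ (b + 1) * W))).1
      - Matrix.trace (D x (U ^ (b + 1 + k + 1) * W * (U ^ b * W))).1
      = X ^ 4 * (cheb (Matrix.trace (D x U).1) k * K x) := by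
    intro x
    rw [htf, htf, show b + 1 + k + 1 = b + 2 + k by omega,
      (tf_gap (D x U).1 (D x W).1 (D x U).2 b k).1, hK1 x]
    ring
  have hzero : X ^ 4 * ∑ x, (cheb (Matrix.trace (D x U).1) k * K x) = (0 : ℤ[X]) := by
    rw [Finset.mul_sum]
    simp_rw [← hdiff]
    rw [Finset.sum_sub_distrib, hsum, sub_self]
  have hzero' : ∑ x, (cheb (Matrix.trace (D x U).1) k * K x) = (0 : ℤ[X]) := by
    rcases mul_eq_zero.1 hzero with h | h
    · exact absurd h (pow_ne_zero 4 X_ne_zero)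
    · exact h
  have heval := congrArg (Polynomial.eval 0) hzero'
  rw [Polynomial.eval_finsetSum, Polynomial.eval_zero] at heval
  have hterm : ∀ x, Polynomial.eval 0 (cheb (Matrix.trace (D x U).1) k * K x)
      = ((k : ℤ) + 1) * (S.cl x U e₁ * S.cl x W e₂ - S.cl x U e₂ * S.cl x W e₁) ^ 2 := by
    intro x
    rw [Polynomial.eval_mul, (cheb_eval (trace_eval (hS x U)) k).1, hK2 x]
  simp_rw [hterm] at heval
  intro x
  have hnn : ∀ y ∈ (Finset.univ : Finset V),
      0 ≤ ((k : ℤ) + 1) * (S.cl y U e₁ * S.cl y W e₂ - S.cl y U e₂ * S.cl y W e₁) ^ 2 :=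
    fun y _ => by positivity
  have h0 := (Finset.sum_eq_zero_iff_of_nonneg hnn).1 heval x (Finset.mem_univ x)
  rcases mul_eq_zero.1 h0 with h | h
  · omega
  · exact pow_eq_zero_iff (two_ne_zero) |>.1 h

end Pool.Agent.H73.D3
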