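import Pool.Agent.H73.D3.Basic

/-!
# Module Tv [H73 D3]: the action on the cosets of a finite index subgroup

PROOF. `V = G ⧸ H`, `act v g = g⁻¹ • v`, `c v g = φ ⟨(out v)⁻¹ * g * out (g⁻¹ • v), _⟩`; base vertex
`v0 = mk 1` with `out v0 ∈ H`; for `y = φ h` take `g = out v0 * h * (out v0)⁻¹`.
-/

set_option autoImplicit false

namespace Pool.Agent.H73.D3

private theorem coset_aux {G F : Type*} [Group G] [Group F] (H : Subgroup G) 
    (φ : H →* F) (hφ : Function.Surjective φ) :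
    ∃ (act : G ⧸ H → G → G ⧸ H) (c : G ⧸ H → G → F) (v0 : G ⧸ H),
      (∀ v, act v 1 = v) ∧ (∀ v g h, act v (g * h) = act (act v g) h) ∧
      (∀ v g h, c v (g * h) = c v g * c (act v g) h) ∧
      (∀ y : F, ∃ g : G, act v0 g = v0 ∧ c v0 g = y) := by
  classical
  have hmem : ∀ (v : G ⧸ H) (g : G), (Quotient.out v)⁻¹ * g * Quotient.out (g⁻¹ • v) ∈ H := by
    intro v g
    rw [mul_assoc]
    refine QuotientGroup.eq.1 ?_
    have h1 : ((g * Quotient.out (g⁻¹ • v) : G) : G ⧸ H) = g • ((Quotient.out (g⁻¹ • v) : G) : G ⧸ H) :=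
      rfl
    rw [h1, QuotientGroup.out_eq', QuotientGroup.out_eq', smul_inv_smul]
  have hact : ∀ (v : G ⧸ H) (g h : G), (g * h)⁻¹ • v = h⁻¹ • (g⁻¹ • v) := by
    intro v g h
    rw [mul_inv_rev, mul_smul]
  refine ⟨fun v g => g⁻¹ • v, fun v g => φ ⟨_, hmem v g⟩, ((1 : G) : G ⧸ H),
    ?_, hact, ?_, ?_⟩
  · intro v
    show (1 : G)⁻¹ • v = v
    rw [inv_one, one_smul]
  · intro v g h
    show φ ⟨_, hmem v (g * h)⟩ = φ ⟨_, hmem v g⟩ * φ ⟨_, hmem (g⁻¹ • v) h⟩
    rw [← map_mul]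
    congr 1
    apply Subtype.ext
    show (Quotient.out v)⁻¹ * (g * h) * Quotient.out ((g * h)⁻¹ • v) =
      (Quotient.out v)⁻¹ * g * Quotient.out (g⁻¹ • v) *
        ((Quotient.out (g⁻¹ • v))⁻¹ * h * Quotient.out (h⁻¹ • g⁻¹ • v))
    rw [hact v g h]
    group
  · intro y
    obtain ⟨h, rfl⟩ := hφ y
    set v0 : G ⧸ H := ((1 : G) : G ⧸ H) with hv0
    have ho : Quotient.out v0 ∈ H := by
      have h1 : ((1 : G) : G ⧸ H) = ((Quotient.out v0 : G) : G ⧸ H) := by
        rw [QuotientGroup.out_eq']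
      have h2 := QuotientGroup.eq.1 h1
      simpa using h2
    have hgH : Quotient.out v0 * (h : G) * (Quotient.out v0)⁻¹ ∈ H :=
      H.mul_mem (H.mul_mem ho h.2) (H.inv_mem ho)
    have hfix : (Quotient.out v0 * (h : G) * (Quotient.out v0)⁻¹)⁻¹ • v0 = v0 := by
      have h1 : (Quotient.out v0 * (h : G) * (Quotient.out v0)⁻¹)⁻¹ • v0 =
        (((Quotient.out v0 * (h : G) * (Quotient.out v0)⁻¹)⁻¹ * 1 : G) : G ⧸ H) := rfl
      rw [h1, mul_one, hv0]
      refine QuotientGroup.eq.2 ?_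
      rw [inv_inv, mul_one]
      exact hgH
    refine ⟨Quotient.out v0 * (h : G) * (Quotient.out v0)⁻¹, hfix, ?_⟩
    show φ ⟨_, hmem v0 _⟩ = φ h
    congr 1
    apply Subtype.ext
    show (Quotient.out v0)⁻¹ * (Quotient.out v0 * (h : G) * (Quotient.out v0)⁻¹) *
      Quotient.out ((Quotient.out v0 * (h : G) * (Quotient.out v0)⁻¹)⁻¹ • v0) = (h : G)
    rw [hfix]
    group

theorem coset_data {G F : Type*} [Group G] [Group F] (H : Subgroup G) (hH : H.FiniteIndex)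
    (φ : H →* F) (hφ : Function.Surjective φ) :
    ∃ (V : Type _) (_ : Fintype V) (act : V → G → V) (c : V → G → F) (v0 : V),
      (∀ v, act v 1 = v) ∧ (∀ v g h, act v (g * h) = act (act v g) h) ∧
      (∀ v g h, c v (g * h) = c v g * c (act v g) h) ∧
      (∀ y : F, ∃ g : G, act v0 g = v0 ∧ c v0 g = y) := by
  classical
  have hfin : Finite (G ⧸ H) := H.finite_quotient_of_finiteIndex
  obtain ⟨act, c, v0, h1, h2, h3, h4⟩ := coset_aux H φ hφ
  let e : (G ⧸ H) ≃ ULift (Fin (Nat.card (G ⧸ H))) := (Finite.equivFin (G ⧸ H)).trans Equiv.ulift.symm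
  refine ⟨ULift (Fin (Nat.card (G ⧸ H))), inferInstance, fun v g => e (act (e.symm v) g),
    fun v g => c (e.symm v) g, e v0, fun v => ?_, fun v g h => ?_, fun v g h => ?_, fun y => ?_⟩
  · show e (act (e.symm v) 1) = v
    rw [h1, e.apply_symm_apply]
  · show e (act (e.symm v) (g * h)) = e (act (e.symm (e (act (e.symm v) g))) h)
    rw [h2, e.symm_apply_apply]
  · show c (e.symm v) (g * h) = c (e.symm v) g * c (e.symm (e (act (e.symm v) g))) h
    rw [h3, e.symm_apply_apply]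
  · obtain ⟨g, hg1, hg2⟩ := h4 y
    refine ⟨g, ?_, ?_⟩
    · show e (act (e.symm (e v0)) g) = e v0
      rw [e.symm_apply_apply, hg1]
    · show c (e.symm (e v0)) g = y
      rw [e.symm_apply_apply, hg2]

end Pool.Agent.H73.D3
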